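import Mathlib
import Pool.Agent.H572Z.Sp.Defs

set_option autoImplicit false

/-!
# Mixed `A_p`-`A_∞^exp` constants and weighted operator norms
-/

namespace Pool.Agent.H572Z.Ex

open MeasureTheory Set Pool.Agent.H572Z.Sp
open scoped ENNReal NNReal

/-- The conjugate exponent `p' = p / (p - 1)`. -/
noncomputable def conj (p : ℝ) : ℝ := p / (p - 1)

/-- The dual weight `σ = w^(1 - p')`. -/
noncomputable def dual {d : ℕ} (p : ℝ) (w : E d → ℝ) : E d → ℝ := fun x => w x ^ (1 - conj p)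

/-- `A_p(w, Q) = ⟨w⟩_Q ⟨σ⟩_Q^(p - 1)`. -/
noncomputable def Ap {d : ℕ} (p : ℝ) (w : E d → ℝ) (Q : Set (E d)) : ℝ≥0∞ :=
  avg w Q * avg (dual p w) Q ^ (p - 1)

/-- `A_∞^exp(w, Q) = ⟨w⟩_Q exp ⟨log w⁻¹⟩_Q`. -/
noncomputable def Aexp {d : ℕ} (w : E d → ℝ) (Q : Set (E d)) : ℝ≥0∞ :=
  avg w Q * ENNReal.ofReal (Real.exp (⨍ x in Q, Real.log (w x)⁻¹))

/-- The mixed constant `sup_Q A_p(w, Q)^θ A_∞^exp(w, Q)^(1 - θ)` over all cubes. -/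
noncomputable def mixed {d : ℕ} (p θ : ℝ) (w : E d → ℝ) : ℝ≥0∞ :=
  ⨆ (a : Fin d → ℝ) (l : ℝ) (_ : 0 < l), Ap p w (cube a l) ^ θ * Aexp w (cube a l) ^ (1 - θ)

/-- `w` is a positive, measurable, locally integrable function with `sup_Q A_p(w, Q) < ∞`. -/
def InAp {d : ℕ} (p : ℝ) (w : E d → ℝ) : Prop :=
  Measurable w ∧ (∀ x, 0 < w x) ∧ LocallyIntegrable w volume ∧
    ⨆ (a : Fin d → ℝ) (l : ℝ) (_ : 0 < l), Ap p w (cube a l) < ⊤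

/-- Test functions: measurable, bounded, with compact support. -/
def IsTest {d : ℕ} (f : E d → ℂ) : Prop :=
  Measurable f ∧ (∃ M : ℝ, ∀ x, ‖f x‖ ≤ M) ∧ HasCompactSupport f

/-- The measure `w dx`. -/
noncomputable def wmeas {d : ℕ} (w : E d → ℝ) : Measure (E d) :=
  volume.withDensity fun x => ENNReal.ofReal (w x)

/-- The norm `(∫ |f|^p w)^(1/p)` of `L^p(w)`. -/
noncomputable def lpNorm {d : ℕ} (p : ℝ) (w : E d → ℝ) (f : E d → ℂ) : ℝ≥0∞ :=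
  (∫⁻ x, ‖f x‖ₑ ^ p ∂(wmeas w)) ^ (1 / p)

/-- The quasinorm `sup_t t w({|f| > t})^(1/p)` of weak `L^p(w)`. -/
noncomputable def weakNorm {d : ℕ} (p : ℝ) (w : E d → ℝ) (f : E d → ℂ) : ℝ≥0∞ :=
  ⨆ t : ℝ≥0, t * wmeas w {x | (t : ℝ) < ‖f x‖} ^ (1 / p)

/-- The norm of `T` on `L^p(w)`, computed on test functions. -/
noncomputable def opStrong {d : ℕ} (T : (E d → ℂ) → E d → ℂ) (p : ℝ) (w : E d → ℝ) : ℝ≥0∞ :=
  ⨆ (f : E d → ℂ) (_ : IsTest f), lpNorm p w (T f) / lpNorm p w f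

/-- The norm of `T` from `L^p(w)` to weak `L^p(w)`, computed on test functions. -/
noncomputable def opWeak {d : ℕ} (T : (E d → ℂ) → E d → ℂ) (p : ℝ) (w : E d → ℝ) : ℝ≥0∞ :=
  ⨆ (f : E d → ℂ) (_ : IsTest f), weakNorm p w (T f) / lpNorm p w f

end Pool.Agent.H572Z.Ex
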