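import Mathlib

set_option autoImplicit false

/-!
# Geometry of the recycled chains on the line
-/

namespace Pool.Agent.H572Z.Ex

open MeasureTheory Set Metric
open scoped ENNReal

noncomputable def rad (i : ℕ) : ℝ := (4⁻¹ : ℝ) ^ i
noncomputable def ctr (i : ℕ) : ℝ := rad i / 2
noncomputable def sml (i : ℕ) : ℝ := rad (2 * i + 2)
noncomputable def sc (i : ℕ) (x : ℝ) : ℝ := (x - ctr i) / sml i
def Es (i : ℕ) : Set ℝ := ball (ctr i) (sml i)
def Ls (i : ℕ) : Set ℝ := Ioc (-rad i) (-rad (i + 1))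
def Ps (i : ℕ) : Set ℝ := ball 0 (rad i)

lemma rad_pos (i : ℕ) : 0 < rad i := by unfold rad; positivity
lemma rad_zero : rad 0 = 1 := by simp [rad]
lemma rad_succ (i : ℕ) : rad (i + 1) = rad i / 4 := by unfold rad; rw [pow_succ]; ring
lemma rad_add (i j : ℕ) : rad (i + j) = rad i * rad j := by unfold rad; rw [pow_add]
lemma rad_anti {i j : ℕ} (h : i ≤ j) : rad j ≤ rad i :=
  pow_le_pow_of_le_one (by norm_num) (by norm_num) h
lemma rad_le_one (i : ℕ) : rad i ≤ 1 := by simpa [rad_zero] using rad_anti (Nat.zero_le i)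
lemma lt_of_rad_lt {i j : ℕ} (h : rad j < rad i) : i < j := by
  by_contra hc
  exact absurd (rad_anti (not_lt.1 hc)) (not_le.2 h)
lemma four_mul_rad (i : ℕ) : (4 : ℝ) ^ i * rad i = 1 := by
  unfold rad; rw [← mul_pow]; norm_num
lemma sml_pos (i : ℕ) : 0 < sml i := rad_pos _
lemma sml_eq (i : ℕ) : sml i = rad i * rad i / 16 := by
  unfold sml
  rw [show 2 * i + 2 = i + i + 1 + 1 by ring, rad_succ, rad_succ, rad_add]; ring
lemma sml_le (i : ℕ) : sml i ≤ rad i / 16 := by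
  rw [sml_eq]
  have := rad_le_one i
  have := rad_pos i
  nlinarith

lemma mem_Ps {i : ℕ} {x : ℝ} : x ∈ Ps i ↔ |x| < rad i := by
  simp [Ps]

lemma mem_Es {i : ℕ} {x : ℝ} : x ∈ Es i ↔ |sc i x| < 1 := by
  rw [Es, mem_ball, Real.dist_eq, sc, abs_div, abs_of_pos (sml_pos i), div_lt_one (sml_pos i)]

lemma mem_Es' {i : ℕ} {x : ℝ} : x ∈ Es i ↔ sc i x ∈ Ps 0 := by
  rw [mem_Es, mem_Ps, rad_zero]

lemma Es_bd {i : ℕ} {x : ℝ} (h : x ∈ Es i) : 7 / 16 * rad i < x ∧ x < 9 / 16 * rad i := by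
  rw [Es, mem_ball, Real.dist_eq, abs_lt, ctr] at h
  have := sml_le i
  constructor <;> linarith [h.1, h.2]

lemma Es_ann {i : ℕ} {x : ℝ} (h : x ∈ Es i) : rad (i + 1) ≤ |x| ∧ |x| < rad i := by
  have h1 := Es_bd h
  have := rad_pos i
  rw [abs_of_pos (by linarith [h1.1]), rad_succ]
  constructor <;> linarith [h1.1, h1.2]

lemma ann_unique {i j : ℕ} {x : ℝ} (hi : rad (i + 1) ≤ |x| ∧ |x| < rad i)
    (hj : rad (j + 1) ≤ |x| ∧ |x| < rad j) : i = j := by
  have h1 := lt_of_rad_lt (hi.1.trans_lt hj.2)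
  have h2 := lt_of_rad_lt (hj.1.trans_lt hi.2)
  omega

lemma Ls_ann {i : ℕ} {x : ℝ} (h : x ∈ Ls i) : x < 0 ∧ rad (i + 1) ≤ |x| ∧ |x| < rad i := by
  have h0 := rad_pos (i + 1)
  have h1 : x < 0 := by linarith [h.2]
  rw [abs_of_neg h1]
  exact ⟨h1, by linarith [h.2], by linarith [h.1]⟩

lemma meas_Es (i : ℕ) : MeasurableSet (Es i) := measurableSet_ball
lemma meas_Ps (i : ℕ) : MeasurableSet (Ps i) := measurableSet_ball
lemma meas_Ls (i : ℕ) : MeasurableSet (Ls i) := measurableSet_Ioc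
lemma vol_Ps (i : ℕ) : volume (Ps i) = ENNReal.ofReal (2 * rad i) := Real.volume_ball _ _
lemma vol_Ls (i : ℕ) : volume (Ls i) = ENNReal.ofReal (3 / 4 * rad i) := by
  rw [Ls, Real.volume_Ioc, rad_succ]; congr 1; ring
lemma meas_sc (i : ℕ) : Measurable (sc i) := by unfold sc; fun_prop
lemma cont_sc (i : ℕ) : Continuous (sc i) := by unfold sc; fun_prop

lemma lint_aff (c r : ℝ) (hr : 0 < r) {F : ℝ → ℝ≥0∞} (hF : Measurable F) :
    ∫⁻ x, F ((x - c) / r) = ENNReal.ofReal r * ∫⁻ x, F x := by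
  have h1 : ∫⁻ x, F ((x - c) / r) = ∫⁻ x, F (x / r) :=
    lintegral_sub_right_eq_self (fun x => F (x / r)) c
  have h2 := Real.map_volume_mul_right (inv_pos.2 hr).ne'
  have h3 : ∫⁻ x, F (x / r) = ∫⁻ x, F x ∂(Measure.map (· * r⁻¹) volume) := by
    rw [lintegral_map hF (by fun_prop)]
    simp only [div_eq_mul_inv]
  rw [h1, h3, h2, lintegral_smul_measure, inv_inv, abs_of_pos hr, smul_eq_mul]

lemma lint_sc (i : ℕ) {F : ℝ → ℝ≥0∞} (hF : Measurable F) :
    ∫⁻ x, F (sc i x) = ENNReal.ofReal (sml i) * ∫⁻ x, F x := lint_aff _ _ (sml_pos i) hF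

lemma lint_pre (i : ℕ) {F : ℝ → ℝ≥0∞} (hF : Measurable F) {s : Set ℝ} (hs : MeasurableSet s) :
    ∫⁻ x in sc i ⁻¹' s, F (sc i x) = ENNReal.ofReal (sml i) * ∫⁻ x in s, F x := by
  rw [← lintegral_indicator hs, ← lint_sc i (hF.indicator hs),
    ← lintegral_indicator (meas_sc i hs)]
  exact lintegral_congr fun x => rfl

lemma lint_E (i : ℕ) {F : ℝ → ℝ≥0∞} (hF : Measurable F) :
    ∫⁻ x in Es i, F (sc i x) = ENNReal.ofReal (sml i) * ∫⁻ x in Ps 0, F x := by
  rw [← lint_pre i hF (meas_Ps 0)]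
  congr 2
  ext x
  exact mem_Es'

lemma sum_lint_le {ι : Type*} (T : Finset ι) (D : ι → Set ℝ) (hD : ∀ i, MeasurableSet (D i))
    (hd : ∀ i ∈ T, ∀ j ∈ T, ∀ x, x ∈ D i → x ∈ D j → i = j) {s : Set ℝ} (hs : ∀ i ∈ T, D i ⊆ s)
    (F : ℝ → ℝ≥0∞) : ∑ i ∈ T, ∫⁻ x in D i, F x ≤ ∫⁻ x in s, F x := by
  rw [← lintegral_biUnion_finset (fun i hi j hj hij => Set.disjoint_left.2 fun x h1 h2 =>
    hij (hd i hi j hj x h1 h2)) (fun i _ => hD i)]
  exact lintegral_mono_set (iUnion₂_subset hs)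

/-! ### The level of a point -/

noncomputable def lev : ℕ → ℝ → ℕ
  | 0, _ => 0
  | N + 1, x => if |x| < rad N then N + 1 else lev N x

lemma lt_lev {N j : ℕ} {x : ℝ} : j < lev N x ↔ j < N ∧ |x| < rad j := by
  induction N with
  | zero => simp [lev]
  | succ N ih =>
    rw [lev]
    split_ifs with h
    · exact ⟨fun hj => ⟨hj, h.trans_le (rad_anti (by omega))⟩, fun hj => hj.1⟩
    · rw [ih]
      refine ⟨fun hj => ⟨by omega, hj.2⟩, fun hj => ⟨?_, hj.2⟩⟩
      rcases Nat.lt_succ_iff_lt_or_eq.1 hj.1 with h1 | h1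
      · exact h1
      · exact absurd (h1 ▸ hj.2) h

lemma meas_lev (N : ℕ) : Measurable (lev N) := by
  induction N with
  | zero => exact measurable_const
  | succ N ih =>
    exact Measurable.ite (measurableSet_lt (by fun_prop) measurable_const) measurable_const ih

lemma lev_out {N : ℕ} {x : ℝ} (h : 1 ≤ |x|) : lev N x = 0 := by
  by_contra hc
  have := (lt_lev.1 (Nat.pos_of_ne_zero hc)).2
  rw [rad_zero] at this
  linarith

lemma lev_ann {N i : ℕ} {x : ℝ} (hi : i < N) (h : rad (i + 1) ≤ |x| ∧ |x| < rad i) :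
    lev N x = i + 1 := by
  have h1 : i < lev N x := lt_lev.2 ⟨hi, h.2⟩
  have h2 : ¬ i + 1 < lev N x := fun hc => absurd (lt_lev.1 hc).2 (not_lt.2 h.1)
  omega

lemma lev_in {N j : ℕ} {x : ℝ} (hj : j < N) (h : |x| < rad j) :
    ∃ k, j ≤ k ∧ k < N ∧ lev N x = k + 1 ∧ |x| < rad k := by
  have h1 : j < lev N x := lt_lev.2 ⟨hj, h⟩
  obtain ⟨k, hk⟩ : ∃ k, lev N x = k + 1 := ⟨lev N x - 1, by omega⟩
  have h2 := lt_lev.1 (show k < lev N x by omega)
  exact ⟨k, by omega, h2.1, hk, h2.2⟩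

lemma lev_near {N : ℕ} {x y : ℝ} (h : |y| ≤ 4 * |x|) : lev N x ≤ lev N y + 1 := by
  by_contra hc
  have h1 := lt_lev.1 (show lev N y + 1 < lev N x by omega)
  have h2 : lev N y < lev N y := lt_lev.2 ⟨by omega, by
    have := h1.2
    rw [rad_succ] at this
    linarith⟩
  omega

/-! ### The recursive weights -/

noncomputable def V (b : ℕ → ℝ) (m N : ℕ) : ℕ → ℝ → ℝ
  | 0, _ => 1
  | g + 1, x => b (lev N x) * ∏ i ∈ Finset.range m, V b m N g (sc i x)

variable {b : ℕ → ℝ} {m N : ℕ}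

lemma V_pos (hb : ∀ k, 0 < b k) (g : ℕ) (x : ℝ) : 0 < V b m N g x := by
  induction g generalizing x with
  | zero => exact one_pos
  | succ g ih => exact mul_pos (hb _) (Finset.prod_pos fun i _ => ih _)

lemma meas_b (b : ℕ → ℝ) (N : ℕ) : Measurable fun x => b (lev N x) :=
  (measurable_from_top (f := b)).comp (meas_lev N)

lemma V_meas (g : ℕ) : Measurable (V b m N g) := by
  induction g with
  | zero => exact measurable_const
  | succ g ih =>
    exact (meas_b b N).mul (Finset.measurable_prod _ fun i _ => ih.comp (meas_sc i))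

lemma V_out (h0 : b 0 = 1) (g : ℕ) {x : ℝ} (h : 1 ≤ |x|) : V b m N g x = 1 := by
  induction g generalizing x with
  | zero => rfl
  | succ g ih =>
    rw [V, lev_out h, h0, one_mul]
    refine Finset.prod_eq_one fun i _ => ih (not_lt.1 fun hc => ?_)
    have := (Es_ann (mem_Es.2 hc)).2
    linarith [rad_le_one i]

lemma V_notE (h0 : b 0 = 1) (g : ℕ) {x : ℝ} (h : ∀ i < m, x ∉ Es i) :
    V b m N (g + 1) x = b (lev N x) := by
  rw [V, Finset.prod_eq_one, mul_one]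
  exact fun i hi => V_out h0 g (not_lt.1 fun hc => h i (Finset.mem_range.1 hi) (mem_Es.2 hc))

lemma V_ann (h0 : b 0 = 1) (hm : m ≤ N) (g : ℕ) {i : ℕ} (hi : i < m) {x : ℝ}
    (h : rad (i + 1) ≤ |x| ∧ |x| < rad i) :
    V b m N (g + 1) x = b (i + 1) * V b m N g (sc i x) := by
  rw [V, lev_ann (by omega) h, Finset.prod_eq_single i]
  · exact fun j _ hj => V_out h0 g (not_lt.1 fun hc => hj (ann_unique (Es_ann (mem_Es.2 hc)) h))
  · exact fun hc => absurd (Finset.mem_range.2 hi) hc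

lemma V_rpow (hb : ∀ k, 0 < b k) (t : ℝ) (g : ℕ) (x : ℝ) :
    V b m N g x ^ t = V (fun k => b k ^ t) m N g x := by
  induction g generalizing x with
  | zero => simp [V]
  | succ g ih =>
    rw [V, V, Real.mul_rpow (hb _).le (Finset.prod_nonneg fun i _ => (V_pos hb g _).le),
      ← Real.finsetProd_rpow _ _ fun i _ => (V_pos hb g _).le]
    simp only [ih]

/-- The mass of a nonnegative function on a set. -/
noncomputable def mo (F : ℝ → ℝ) (s : Set ℝ) : ℝ≥0∞ := ∫⁻ x in s, ENNReal.ofReal (F x)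

lemma mo_mono (F : ℝ → ℝ) {s t : Set ℝ} (h : s ⊆ t) : mo F s ≤ mo F t := lintegral_mono_set h

lemma mo_E (hb : ∀ k, 0 < b k) (h0 : b 0 = 1) (hm : m ≤ N) (g : ℕ) {i : ℕ} (hi : i < m) :
    mo (V b m N (g + 1)) (Es i) = ENNReal.ofReal (b (i + 1) * sml i) * mo (V b m N g) (Ps 0) := by
  have hF : Measurable fun x => ENNReal.ofReal (V b m N g x) := (V_meas g).ennreal_ofReal
  rw [mo, setLIntegral_congr_fun (meas_Es i) (g := fun x => ENNReal.ofReal (b (i + 1)) *
    ENNReal.ofReal (V b m N g (sc i x))) fun x hx => by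
      beta_reduce
      rw [V_ann h0 hm g hi (Es_ann hx), ENNReal.ofReal_mul (hb _).le],
    lintegral_const_mul' _ _ ENNReal.ofReal_ne_top, lint_E i hF, ENNReal.ofReal_mul (hb _).le,
    mul_assoc]
  rfl

lemma mo_up (hb : ∀ k, 0 < b k) (h0 : b 0 = 1) (hm : m ≤ N) (g : ℕ) {j : ℕ} (hj : j < N) {X : ℝ}
    (hX0 : 0 ≤ X) (hX : mo (V b m N g) (Ps 0) ≤ ENNReal.ofReal X) :
    mo (V b m N (g + 1)) (Ps j) ≤ ENNReal.ofReal (2 * ∑ i ∈ Finset.Ico j N, b (i + 1) * rad i +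
      (∑ i ∈ Finset.Ico j m, b (i + 1) * sml i) * X) := by
  set F : ℝ → ℝ≥0∞ := fun x => ENNReal.ofReal (V b m N (g + 1) x) with hF
  have hFm : Measurable F := (V_meas _).ennreal_ofReal
  have h1 : ∀ x, (Ps j).indicator F x ≤
      ∑ i ∈ Finset.Ico j N, (Ps i).indicator (fun _ => ENNReal.ofReal (b (i + 1))) x +
      ∑ i ∈ Finset.Ico j m, (Es i).indicator F x := by
    intro x
    by_cases hx : x ∈ Ps j
    swap
    · rw [indicator_of_notMem hx]; exact zero_le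
    rw [indicator_of_mem hx]
    by_cases hE : ∃ i < m, x ∈ Es i
    · obtain ⟨i, hi, hxi⟩ := hE
      have := lt_of_rad_lt ((Es_ann hxi).1.trans_lt (mem_Ps.1 hx))
      refine le_add_left (le_trans ?_ (Finset.single_le_sum
        (f := fun i => (Es i).indicator F x) (fun _ _ => zero_le)
        (Finset.mem_Ico.2 ⟨show j ≤ i by omega, hi⟩)))
      simp only [indicator_of_mem hxi, le_refl]
    · push Not at hE
      obtain ⟨k, h1, h2, h3, h4⟩ := lev_in hj (mem_Ps.1 hx)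
      refine le_add_right (le_trans ?_ (Finset.single_le_sum
        (f := fun i => (Ps i).indicator (fun _ => ENNReal.ofReal (b (i + 1))) x)
        (fun _ _ => zero_le) (Finset.mem_Ico.2 ⟨h1, h2⟩)))
      simp only [indicator_of_mem (mem_Ps.2 h4), hF, V_notE h0 g hE, h3, le_refl]
  have hs : 0 ≤ ∑ i ∈ Finset.Ico j m, b (i + 1) * sml i :=
    Finset.sum_nonneg fun i _ => (mul_pos (hb _) (sml_pos i)).le
  have hr : 0 ≤ ∑ i ∈ Finset.Ico j N, b (i + 1) * rad i :=
    Finset.sum_nonneg fun i _ => (mul_pos (hb _) (rad_pos i)).le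
  rw [mo, ← lintegral_indicator (meas_Ps j)]
  refine (lintegral_mono h1).trans ?_
  rw [lintegral_add_left (Finset.measurable_sum _ fun i _ => measurable_const.indicator (meas_Ps i)),
    lintegral_finsetSum _ fun i _ => measurable_const.indicator (meas_Ps i),
    lintegral_finsetSum _ fun i _ => hFm.indicator (meas_Es i),
    ENNReal.ofReal_add (by positivity) (by positivity), Finset.mul_sum, Finset.sum_mul,
    ENNReal.ofReal_sum_of_nonneg fun i _ => (mul_pos two_pos (mul_pos (hb _) (rad_pos i))).le,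
    ENNReal.ofReal_sum_of_nonneg fun i _ => mul_nonneg (mul_pos (hb _) (sml_pos i)).le hX0]
  refine add_le_add (Finset.sum_le_sum fun i _ => ?_) (Finset.sum_le_sum fun i hi => ?_)
  · rw [lintegral_indicator_const (meas_Ps i), vol_Ps, ← ENNReal.ofReal_mul (hb _).le]
    exact le_of_eq (by congr 1; ring)
  · rw [lintegral_indicator (meas_Es i), ENNReal.ofReal_mul (mul_pos (hb _) (sml_pos i)).le]
    exact (mo_E hb h0 hm g (Finset.mem_Ico.1 hi).2).le.trans (by gcongr)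

lemma bulk_low (hb : ∀ k, 0 < b k) {j N' : ℕ} (hN : N' ≤ N) :
    ENNReal.ofReal (3 / 4 * ∑ i ∈ Finset.Ico j N', b (i + 1) * rad i) ≤
      mo (fun x => b (lev N x)) (Ps j ∩ Iio 0) := by
  rw [Finset.mul_sum, ENNReal.ofReal_sum_of_nonneg fun i _ =>
    (mul_pos (by norm_num) (mul_pos (hb _) (rad_pos i))).le]
  refine le_trans (Finset.sum_le_sum fun i hi => ?_) (sum_lint_le (Finset.Ico j N') Ls meas_Ls
    (fun i _ k _ x h1 h2 => ann_unique (Ls_ann h1).2 (Ls_ann h2).2) (fun i hi x hx => mem_inter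
      (mem_Ps.2 ((Ls_ann hx).2.2.trans_le (rad_anti (Finset.mem_Ico.1 hi).1))) (Ls_ann hx).1) _)
  rw [setLIntegral_congr_fun (meas_Ls i) (g := fun _ => ENNReal.ofReal (b (i + 1))) fun x hx => by
    beta_reduce
    rw [lev_ann ((Finset.mem_Ico.1 hi).2.trans_le hN) (Ls_ann hx).2],
    setLIntegral_const, vol_Ls, ← ENNReal.ofReal_mul (hb _).le]
  exact le_of_eq (by congr 1; ring)

lemma mo_low (hb : ∀ k, 0 < b k) (h0 : b 0 = 1) (hm : m ≤ N) (g : ℕ) :
    ENNReal.ofReal (3 / 4 * ∑ i ∈ Finset.range m, b (i + 1) * rad i) +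
      ENNReal.ofReal (∑ i ∈ Finset.range m, b (i + 1) * sml i) * mo (V b m N g) (Ps 0) ≤
      mo (V b m N (g + 1)) (Ps 0) := by
  have h1 := bulk_low (b := b) (j := 0) hb hm
  rw [← Finset.range_eq_Ico] at h1
  have h2 : mo (fun x => b (lev N x)) (Ps 0 ∩ Iio 0) = mo (V b m N (g + 1)) (Ps 0 ∩ Iio 0) := by
    refine setLIntegral_congr_fun ((meas_Ps 0).inter measurableSet_Iio) fun x hx => ?_
    beta_reduce
    rw [V_notE h0 g fun i _ hc => ?_]
    have := (Es_bd hc).1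
    have := rad_pos i
    linarith [mem_Iio.1 hx.2]
  have h3 : ENNReal.ofReal (∑ i ∈ Finset.range m, b (i + 1) * sml i) * mo (V b m N g) (Ps 0) ≤
      mo (V b m N (g + 1)) (Ps 0 \ Iio 0) := by
    rw [ENNReal.ofReal_sum_of_nonneg fun i _ => (mul_pos (hb _) (sml_pos i)).le, Finset.sum_mul]
    refine le_trans (Finset.sum_le_sum fun i hi => (mo_E hb h0 hm g (Finset.mem_range.1 hi)).ge)
      (sum_lint_le (Finset.range m) Es meas_Es
        (fun i _ k _ x h1 h2 => ann_unique (Es_ann h1) (Es_ann h2)) (fun i _ x hx => mem_sdiff_of_mem ?_ ?_) _)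
    · exact mem_Ps.2 ((Es_ann hx).2.trans_le (rad_anti (Nat.zero_le i)))
    · have := (Es_bd hx).1
      have := rad_pos i
      exact fun hc => by linarith [mem_Iio.1 hc]
  refine (add_le_add (h1.trans h2.le) h3).trans (le_of_eq ?_)
  exact lintegral_inter_add_sdiff _ _ measurableSet_Iio

end Pool.Agent.H572Z.Ex
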