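import Mathlib
import Pool.Agent.H572Z.Ex.Geo

set_option autoImplicit false

/-!
# Moments of the recursive weights on all intervals
-/

namespace Pool.Agent.H572Z.Ex

open MeasureTheory Set Metric
open scoped ENNReal

noncomputable def bw (B u v : ℝ) (m : ℕ) : ℕ → ℝ
  | 0 => 1
  | 1 => B
  | i + 2 => (if i < m then u else v) * bw B u v m (i + 1)

variable {B u v : ℝ} {b : ℕ → ℝ} {m N : ℕ}

lemma bw_pos (hB : 0 < B) (hu : 0 < u) (hv : 0 < v) : ∀ k, 0 < bw B u v m k
  | 0 => one_pos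
  | 1 => hB
  | i + 2 => by
    rw [bw]
    exact mul_pos (by split_ifs <;> assumption) (bw_pos hB hu hv (i + 1))

lemma bw_rpow (hB : 0 < B) (hu : 0 < u) (hv : 0 < v) (t : ℝ) :
    ∀ k, bw B u v m k ^ t = bw (B ^ t) (u ^ t) (v ^ t) m k
  | 0 => by simp [bw]
  | 1 => rfl
  | i + 2 => by
    rw [bw, bw, Real.mul_rpow (by split_ifs <;> positivity) (bw_pos hB hu hv _).le,
      bw_rpow hB hu hv t (i + 1)]
    split_ifs <;> rfl

lemma bw_up {i : ℕ} (hi : i ≤ m) : bw B u v m (i + 1) = B * u ^ i := by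
  induction i with
  | zero => simp [bw]
  | succ i ih => rw [bw, if_pos (by omega), ih (by omega)]; ring

lemma bw_down {i : ℕ} (hi : m ≤ i) : bw B u v m (i + 2) = v * bw B u v m (i + 1) := by
  rw [bw, if_neg (by omega)]

lemma bw_le (hB : 0 < B) (hu : 0 < u) (hv : 0 < v) {D : ℝ} (h1 : u ≤ D) (h2 : v ≤ D) (i : ℕ) :
    bw B u v m (i + 2) ≤ D * bw B u v m (i + 1) := by
  rw [bw]
  exact mul_le_mul_of_nonneg_right (by split_ifs <;> assumption) (bw_pos hB hu hv _).le

lemma V_bw_rpow (hB : 0 < B) (hu : 0 < u) (hv : 0 < v) (t : ℝ) (g : ℕ) :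
    (fun x => V (bw B u v m) m N g x ^ t) = V (bw (B ^ t) (u ^ t) (v ^ t) m) m N g := by
  funext x
  rw [V_rpow (bw_pos hB hu hv)]
  simp only [bw_rpow hB hu hv]

lemma sum_half {a : ℕ → ℝ} (h0 : ∀ i, 0 ≤ a i) {j n : ℕ}
    (h : ∀ i, j ≤ i → i + 1 ≤ n → a (i + 1) ≤ a i / 2) :
    ∑ i ∈ Finset.Ico j n, a i ≤ 2 * a j := by
  rcases le_or_gt j n with hjn | hjn
  swap
  · rw [Finset.Ico_eq_empty (by omega), Finset.sum_empty]; linarith [h0 j]
  have key : ∀ k, j ≤ k → k ≤ n → ∑ i ∈ Finset.Ico j k, a i + 2 * a k ≤ 2 * a j := by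
    intro k hk
    induction k, hk using Nat.le_induction with
    | base => simp
    | succ k hk ih =>
      intro hn
      rw [Finset.sum_Ico_succ_top hk]
      linarith [ih (by omega), h k hk hn]
  linarith [key n hjn le_rfl, h0 n]

lemma sum_rad_le (hb : ∀ k, 0 < b k) {j n : ℕ}
    (h : ∀ i, j ≤ i → i + 1 ≤ n → b (i + 2) ≤ 2 * b (i + 1)) :
    ∑ i ∈ Finset.Ico j n, b (i + 1) * rad i ≤ 2 * (b (j + 1) * rad j) := by
  refine sum_half (a := fun i => b (i + 1) * rad i) (fun i => (mul_pos (hb _) (rad_pos i)).le)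
    fun i h1 h2 => ?_
  have := h i h1 h2
  have := rad_pos i
  rw [rad_succ]
  nlinarith

lemma sum_sml_le (hb : ∀ k, 0 < b k) {j n : ℕ}
    (h : ∀ i, j ≤ i → i + 1 ≤ n → b (i + 2) ≤ 2 * b (i + 1)) :
    ∑ i ∈ Finset.Ico j n, b (i + 1) * sml i ≤ b (j + 1) * rad j / 8 := by
  have h1 := sum_rad_le hb h
  have h2 : ∑ i ∈ Finset.Ico j n, b (i + 1) * sml i ≤
      ∑ i ∈ Finset.Ico j n, b (i + 1) * rad i / 16 :=
    Finset.sum_le_sum fun i _ => by
      rw [mul_div_assoc]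
      exact mul_le_mul_of_nonneg_left (sml_le i) (hb _).le
  rw [← Finset.sum_div] at h2
  linarith

lemma mo_zero : mo (V b m N 0) (Ps 0) = ENNReal.ofReal 2 := by
  simp [mo, V, vol_Ps, rad_zero]

lemma x_le (hb : ∀ k, 0 < b k) (h0 : b 0 = 1) (hm : m ≤ N) (hN : 0 < N) {A : ℝ} (hA1 : 1 ≤ A)
    (hA : 2 * ∑ i ∈ Finset.Ico 0 N, b (i + 1) * rad i ≤ A)
    (hl : ∑ i ∈ Finset.Ico 0 m, b (i + 1) * sml i ≤ 1 / 2) (g : ℕ) :
    mo (V b m N g) (Ps 0) ≤ ENNReal.ofReal (2 * A) := by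
  induction g with
  | zero => rw [mo_zero]; exact ENNReal.ofReal_le_ofReal (by linarith)
  | succ g ih =>
    refine (mo_up hb h0 hm g hN (by linarith) ih).trans (ENNReal.ofReal_le_ofReal ?_)
    nlinarith

lemma x_lin (hb : ∀ k, 0 < b k) (h0 : b 0 = 1) (hm : m ≤ N) (hN : 0 < N) {A : ℝ} (hA1 : 0 ≤ A)
    (hA : 2 * ∑ i ∈ Finset.Ico 0 N, b (i + 1) * rad i ≤ A)
    (hl : ∑ i ∈ Finset.Ico 0 m, b (i + 1) * sml i ≤ 1) (g : ℕ) :
    mo (V b m N g) (Ps 0) ≤ ENNReal.ofReal (2 + A * g) := by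
  induction g with
  | zero => rw [mo_zero]; simp
  | succ g ih =>
    have h1 : 0 ≤ 2 + A * g := by positivity
    refine (mo_up hb h0 hm g hN h1 ih).trans (ENNReal.ofReal_le_ofReal ?_)
    push_cast
    nlinarith

lemma dbl_x (hb : ∀ k, 0 < b k) (h0 : b 0 = 1) (hm : m ≤ N) (hN : 0 < N) (h1 : b 1 ≤ 4)
    (h2 : ∀ i, b (i + 2) ≤ 2 * b (i + 1)) (g : ℕ) :
    mo (V b m N g) (Ps 0) ≤ ENNReal.ofReal 32 := by
  have a1 := sum_rad_le hb (j := 0) (n := N) fun i _ _ => h2 i
  have a2 := sum_sml_le hb (j := 0) (n := m) fun i _ _ => h2 i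
  rw [rad_zero, zero_add] at a1 a2
  have := x_le hb h0 hm hN (A := 16) (by norm_num) (by linarith) (by linarith) g
  rwa [show (2 : ℝ) * 16 = 32 by norm_num] at this

lemma dbl_P (hb : ∀ k, 0 < b k) (h0 : b 0 = 1) (hm : m ≤ N) (h1 : b 1 ≤ 4)
    (h2 : ∀ i, b (i + 2) ≤ 2 * b (i + 1)) (g : ℕ) {j : ℕ} (hj : j < N) :
    mo (V b m N (g + 1)) (Ps j) ≤ ENNReal.ofReal (8 * (b (j + 1) * rad j)) := by
  have a1 := sum_rad_le hb (j := j) (n := N) fun i _ _ => h2 i
  have a2 := sum_sml_le hb (j := j) (n := m) fun i _ _ => h2 i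
  refine (mo_up hb h0 hm g hj (by norm_num) (dbl_x hb h0 hm (by omega) h1 h2 g)).trans
    (ENNReal.ofReal_le_ofReal (by linarith))

/-- Control of the moments on the interval `[a, a + l)`. -/
def Gd {ι : Type} (𝒟 : Set (ι → ℝ)) (TT : ι → ℝ) (W : ℝ → ℝ) (a l : ℝ) : Prop :=
  ∃ γ : ℝ, 0 < γ ∧ ∃ D ∈ 𝒟, ∀ t,
    mo (fun x => W x ^ TT t) (Ico a (a + l)) ≤ ENNReal.ofReal (D t * γ ^ TT t * l)

lemma Gd.triv {ι : Type} {𝒟 : Set (ι → ℝ)} {TT : ι → ℝ} {W : ℝ → ℝ} {a l L γ : ℝ} (hγ : 0 < γ)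
    (H1 : ∃ D ∈ 𝒟, ∀ t, ∀ y z : ℝ, 0 < y → 0 < z → y ≤ L * z → z ≤ L * y →
      y ^ TT t ≤ D t * z ^ TT t)
    (h : ∀ x ∈ Ico a (a + l), 0 < W x ∧ W x ≤ L * γ ∧ γ ≤ L * W x) : Gd 𝒟 TT W a l := by
  obtain ⟨D, hD, H⟩ := H1
  refine ⟨γ, hγ, D, hD, fun t => ?_⟩
  rcases (Ico a (a + l)).eq_empty_or_nonempty with he | ⟨x₀, hx₀⟩
  · rw [he]; simp [mo]
  have h0 : 0 ≤ D t * γ ^ TT t := by
    have := h x₀ hx₀
    exact (Real.rpow_nonneg this.1.le (TT t)).trans (H t _ _ this.1 hγ this.2.1 this.2.2)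
  calc _ ≤ ∫⁻ _ in Ico a (a + l), ENNReal.ofReal (D t * γ ^ TT t) :=
        setLIntegral_mono' measurableSet_Ico fun x hx => ENNReal.ofReal_le_ofReal
          (H t _ _ (h x hx).1 hγ (h x hx).2.1 (h x hx).2.2)
    _ = _ := by
        rw [setLIntegral_const, Real.volume_Ico, ← ENNReal.ofReal_mul h0]
        congr 2; ring

theorem all_good (hb : ∀ k, 0 < b k) (h0 : b 0 = 1) (hm : m ≤ N) (hN : 0 < N)
    {ι : Type} {𝒟 : Set (ι → ℝ)} {TT : ι → ℝ} {L : ℝ} {G : ℕ} (hL : 1 ≤ L)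
    (hbL : ∀ k, b (k + 1) ≤ L * b k ∧ b k ≤ L * b (k + 1))
    (H1 : ∃ D ∈ 𝒟, ∀ t, ∀ y z : ℝ, 0 < y → 0 < z → y ≤ L * z → z ≤ L * y →
      y ^ TT t ≤ D t * z ^ TT t)
    (H2 : ∀ j < N, ∃ D ∈ 𝒟, ∀ g < G, ∀ t, 0 ≤ D t ∧
      mo (fun x => V b m N (g + 1) x ^ TT t) (Ps j) ≤
        ENNReal.ofReal (D t * b (j + 1) ^ TT t * (rad j / 64)))
    (H3 : ∃ D ∈ 𝒟, ∀ g < G, ∀ t, 1 ≤ D t ∧
      mo (fun x => V b m N (g + 1) x ^ TT t) (Ps 0) ≤ ENNReal.ofReal ((D t - 1) / 16)) :
    ∀ g ≤ G, ∀ a l : ℝ, 0 < l → Gd 𝒟 TT (V b m N g) a l := by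
  intro g
  induction g with
  | zero =>
    intro _ a l _
    exact Gd.triv one_pos H1 fun x _ => ⟨one_pos, by simpa [V] using hL, by simpa [V] using hL⟩
  | succ g ih =>
    intro hg a l hl
    set R := max |a| |a + l| with hR
    have hI : ∀ x ∈ Ico a (a + l), |x| ≤ R ∧ R - l ≤ |x| := by
      intro x hx
      have h1 := hx.1
      have h2 := hx.2
      refine ⟨abs_le.2 ⟨?_, ?_⟩, ?_⟩
      · linarith [neg_abs_le a, le_max_left |a| |a + l|]
      · linarith [le_abs_self (a + l), le_max_right |a| |a + l|]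
      · rw [sub_le_iff_le_add]
        refine max_le (abs_le.2 ⟨?_, ?_⟩) (abs_le.2 ⟨?_, ?_⟩) <;>
          linarith [neg_abs_le x, le_abs_self x]
    have ha : a ∈ Ico a (a + l) := ⟨le_rfl, by linarith⟩
    have triv : (∀ x ∈ Ico a (a + l), (∀ i < m, x ∉ Es i) ∧ lev N x ≤ lev N a + 1 ∧
        lev N a ≤ lev N x + 1) → Gd 𝒟 TT (V b m N (g + 1)) a l := by
      intro h
      refine Gd.triv (hb (lev N a)) H1 fun x hx => ⟨V_pos hb _ _, ?_⟩
      obtain ⟨h1, h2, h3⟩ := h x hx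
      rw [V_notE h0 g h1]
      have key : ∀ k k' : ℕ, k ≤ k' + 1 → k' ≤ k + 1 → b k ≤ L * b k' := by
        intro k k' e1 e2
        rcases lt_trichotomy k k' with e | e | e
        · rw [show k' = k + 1 by omega]; exact (hbL k).2
        · rw [e]; exact le_mul_of_one_le_left (hb _).le hL
        · rw [show k = k' + 1 by omega]; exact (hbL k').1
      exact ⟨key _ _ h2 h3, key _ _ h3 h2⟩
    rcases le_or_gt (R / 16) l with hc | hc
    · rcases le_or_gt 1 R with hR1 | hR1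
      · obtain ⟨D, hD, H⟩ := H3
        refine ⟨1, one_pos, D, hD, fun t => ?_⟩
        obtain ⟨d1, d2⟩ := H g (by omega) t
        rw [mo, ← lintegral_inter_add_sdiff _ _ (meas_Ps 0)]
        have e1 : ∫⁻ x in Ico a (a + l) \ Ps 0, ENNReal.ofReal (V b m N (g + 1) x ^ TT t) ≤
            ENNReal.ofReal l := by
          rw [setLIntegral_congr_fun (measurableSet_Ico.diff (meas_Ps 0)) (g := fun _ => 1)
            fun x hx => by
              beta_reduce
              rw [V_out h0 _ (not_lt.1 fun hc => hx.2 (mem_Ps.2 (by rwa [rad_zero])))]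
              simp, setLIntegral_const, one_mul]
          refine (measure_mono sdiff_subset).trans (le_of_eq ?_)
          rw [Real.volume_Ico]; congr 1; ring
        refine (add_le_add ((mo_mono _ inter_subset_right).trans d2) e1).trans ?_
        rw [← ENNReal.ofReal_add (by linarith) hl.le, Real.one_rpow]
        exact ENNReal.ofReal_le_ofReal (by nlinarith)
      · have hR0 : 0 ≤ R := (abs_nonneg a).trans (le_max_left _ _)
        rcases lt_or_ge R (rad N) with hRN | hRN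
        · have key : ∀ x ∈ Ico a (a + l), lev N x = N := by
            intro x hx
            have h1 : N - 1 < lev N x := lt_lev.2 ⟨by omega,
              ((hI x hx).1.trans_lt hRN).trans_le (rad_anti (by omega))⟩
            have h2 : ¬ N < lev N x := fun h => lt_irrefl _ (lt_lev.1 h).1
            omega
          refine triv fun x hx => ⟨fun i hi hE => ?_, by rw [key x hx, key a ha]; omega,
            by rw [key x hx, key a ha]; omega⟩
          have := lt_of_rad_lt ((Es_ann hE).1.trans_lt ((hI x hx).1.trans_lt hRN)) 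
          omega
        · obtain ⟨j, -, hjN, hj1, hj2⟩ := lev_in (x := R) hN
            (by rw [abs_of_nonneg hR0, rad_zero]; exact hR1)
          rw [abs_of_nonneg hR0] at hj2
          have hj3 : rad (j + 1) ≤ R := by
            by_contra hc'
            have h1 : j + 1 < N := by
              by_contra h2
              exact hc' ((rad_anti (by omega)).trans hRN)
            have : j + 1 < lev N R := lt_lev.2 ⟨h1, by rw [abs_of_nonneg hR0]; exact not_le.1 hc'⟩
            omega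
          obtain ⟨D, hD, H⟩ := H2 j hjN
          refine ⟨b (j + 1), hb _, D, hD, fun t => ?_⟩
          obtain ⟨d1, d2⟩ := H g (by omega) t
          refine ((mo_mono _ fun x hx => mem_Ps.2 ((hI x hx).1.trans_lt hj2)).trans d2).trans
            (ENNReal.ofReal_le_ofReal (mul_le_mul_of_nonneg_left ?_
              (mul_nonneg d1 (Real.rpow_nonneg (hb _).le (TT t)))))
          rw [rad_succ] at hj3
          linarith
    · by_cases hE : ∃ i < m, ∃ x₀ ∈ Ico a (a + l), x₀ ∈ Es i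
      · obtain ⟨i, hi, x₀, hx₀, hE⟩ := hE
        have hann : ∀ x ∈ Ico a (a + l), rad (i + 1) ≤ |x| ∧ |x| < rad i := by
          intro x hx
          have h1 := Es_bd hE
          have h2 := hI x₀ hx₀
          have h3 := hI x hx
          have h4 := rad_pos i
          rw [abs_of_pos (by linarith [h1.1])] at h2
          rw [rad_succ]
          constructor <;> linarith [h1.1, h1.2, h2.1, h2.2, h3.1, h3.2]
        have hs := sml_pos i
        obtain ⟨γ, hγ, D, hD, H⟩ := ih (by omega) (sc i a) (l / sml i) (by positivity)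
        refine ⟨b (i + 1) * γ, mul_pos (hb _) hγ, D, hD, fun t => ?_⟩
        have hF : Measurable fun x => ENNReal.ofReal (V b m N g x ^ TT t) :=
          ((V_meas g).pow_const (TT t)).ennreal_ofReal
        have e : Ico a (a + l) = sc i ⁻¹' Ico (sc i a) (sc i a + l / sml i) := by
          ext x
          simp only [mem_preimage, mem_Ico, sc]
          rw [← add_div, div_le_div_iff_of_pos_right hs, div_lt_div_iff_of_pos_right hs]
          constructor <;> rintro ⟨h1, h2⟩ <;> constructor <;> linarith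
        have hbt := Real.rpow_nonneg (hb (i + 1)).le (TT t)
        rw [mo, setLIntegral_congr_fun measurableSet_Ico (g := fun x =>
          ENNReal.ofReal (b (i + 1) ^ TT t) * ENNReal.ofReal (V b m N g (sc i x) ^ TT t)) fun x hx => by
            beta_reduce
            rw [V_ann h0 hm g hi (hann x hx), Real.mul_rpow (hb _).le (V_pos hb _ _).le,
              ENNReal.ofReal_mul hbt],
          lintegral_const_mul' _ _ ENNReal.ofReal_ne_top, e, lint_pre i hF measurableSet_Ico]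
        refine (mul_le_mul_right (mul_le_mul_right (H t) _) _).trans (le_of_eq ?_)
        rw [← ENNReal.ofReal_mul hs.le, ← ENNReal.ofReal_mul hbt, Real.mul_rpow (hb _).le hγ.le]
        congr 1
        field_simp
      · push Not at hE
        have hR0 : 0 ≤ R := (abs_nonneg a).trans (le_max_left _ _)
        refine triv fun x hx => ⟨fun i hi => hE i hi x hx, lev_near ?_, lev_near ?_⟩ <;>
          linarith [(hI x hx).1, (hI x hx).2, (hI a ha).1, (hI a ha).2]

end Pool.Agent.H572Z.Ex
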