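import Mathlib
import Pool.Agent.H572Z.Ex.Mom

set_option autoImplicit false

/-!
# A positive kernel adapted to the recycled chains
-/

namespace Pool.Agent.H572Z.Ex

open MeasureTheory Set Metric
open scoped ENNReal

noncomputable def tent (u : ℝ) : ℝ := max 0 (min 1 (4 - 4 * |u|))

lemma tent_nonneg (u : ℝ) : 0 ≤ tent u := le_max_left _ _
lemma tent_le_one (u : ℝ) : tent u ≤ 1 := max_le zero_le_one (min_le_left _ _)
lemma tent_zero {u : ℝ} (h : 1 ≤ |u|) : tent u = 0 :=
  max_eq_left ((min_le_right _ _).trans (by linarith))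
lemma tent_one {u : ℝ} (h : |u| ≤ 3 / 4) : tent u = 1 := by
  rw [tent, min_eq_left (by linarith), max_eq_right zero_le_one]
lemma tent_cont : Continuous tent := by unfold tent; fun_prop
lemma tent_lip (u v : ℝ) : |tent u - tent v| ≤ 4 * |u - v| := by
  have h := abs_abs_sub_abs_le_abs_sub u v
  calc |tent u - tent v| ≤ max |(0 : ℝ) - 0| |min 1 (4 - 4 * |u|) - min 1 (4 - 4 * |v|)| :=
        abs_max_sub_max_le_max _ _ _ _
    _ ≤ 4 * |u - v| := by
        refine max_le (by simp) ((abs_min_sub_min_le_max _ _ _ _).trans (max_le (by simp) ?_))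
        rw [show 4 - 4 * |u| - (4 - 4 * |v|) = -4 * (|u| - |v|) by ring, abs_mul]
        norm_num
        exact h

noncomputable def ch (n : ℕ) (x y : ℝ) : ℝ := 4 ^ n * tent (4 ^ n * x) * tent (4 ^ n * y)

lemma abs_four_mul (n : ℕ) (x : ℝ) : |(4 : ℝ) ^ n * x| = 4 ^ n * |x| := by
  rw [abs_mul, abs_of_pos (by positivity)]

lemma tent_far {n : ℕ} {y : ℝ} (h : rad n ≤ |y|) : tent (4 ^ n * y) = 0 := by
  refine tent_zero ?_
  rw [abs_four_mul, ← four_mul_rad n]
  gcongr

lemma ch_nonneg (n : ℕ) (x y : ℝ) : 0 ≤ ch n x y :=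
  mul_nonneg (mul_nonneg (by positivity) (tent_nonneg _)) (tent_nonneg _)
lemma ch_symm (n : ℕ) (x y : ℝ) : ch n x y = ch n y x := by unfold ch; ring
lemma ch_far {n : ℕ} (x : ℝ) {y : ℝ} (h : rad n ≤ |y|) : ch n x y = 0 := by
  rw [ch, tent_far h, mul_zero]
lemma ch_le (n : ℕ) (x y : ℝ) : ch n x y ≤ 4 ^ n := by
  have h1 := tent_le_one (4 ^ n * x)
  have h2 := tent_le_one (4 ^ n * y)
  have h3 := tent_nonneg (4 ^ n * y)
  calc ch n x y ≤ 4 ^ n * 1 * 1 := by unfold ch; gcongr
    _ = _ := by ring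

noncomputable def kk (n : ℕ) (x y : ℝ) : ℝ :=
  ch n x y + ∑ i ∈ Finset.range n,
    if _h : 2 * i + 2 ≤ n then 4 ^ (2 * i + 2) * kk (n - (2 * i + 2)) (sc i x) (sc i y) else 0
termination_by n
decreasing_by omega

lemma kk_eq (n : ℕ) (x y : ℝ) : kk n x y = ch n x y + ∑ i ∈ Finset.range n,
    if 2 * i + 2 ≤ n then 4 ^ (2 * i + 2) * kk (n - (2 * i + 2)) (sc i x) (sc i y) else 0 := by
  rw [kk]; simp only [dite_eq_ite]

lemma kk_nonneg (n : ℕ) : ∀ x y, 0 ≤ kk n x y := by
  induction n using Nat.strong_induction_on with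
  | _ n ih =>
    intro x y
    rw [kk_eq]
    refine add_nonneg (ch_nonneg _ _ _) (Finset.sum_nonneg fun i _ => ?_)
    split_ifs with h
    · exact mul_nonneg (by positivity) (ih _ (by omega) _ _)
    · exact le_rfl

lemma kk_symm (n : ℕ) : ∀ x y, kk n x y = kk n y x := by
  induction n using Nat.strong_induction_on with
  | _ n ih =>
    intro x y
    rw [kk_eq, kk_eq n y x, ch_symm]
    congr 1
    refine Finset.sum_congr rfl fun i _ => ?_
    split_ifs with h
    · rw [ih _ (by omega)]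
    · rfl

lemma kk_cont (n : ℕ) : Continuous fun z : ℝ × ℝ => kk n z.1 z.2 := by
  induction n using Nat.strong_induction_on with
  | _ n ih =>
    simp only [kk_eq n]
    refine Continuous.add ?_ (continuous_finsetSum _ fun i _ => ?_)
    · unfold ch
      have := tent_cont
      fun_prop
    · split_ifs with h
      · exact continuous_const.mul ((ih (n - (2 * i + 2)) (by omega)).comp
          (((cont_sc i).comp continuous_fst).prodMk ((cont_sc i).comp continuous_snd)))
      · exact continuous_const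

lemma kk_out (n : ℕ) : ∀ x y, 1 ≤ |y| → kk n x y = 0 := by
  induction n using Nat.strong_induction_on with
  | _ n ih =>
    intro x y hy
    rw [kk_eq, ch_far x ((rad_le_one n).trans hy), zero_add]
    refine Finset.sum_eq_zero fun i _ => ?_
    split_ifs with h
    · rw [ih _ (by omega) _ _ (not_lt.1 fun hc => ?_), mul_zero]
      have := (Es_ann (mem_Es.2 hc)).2
      linarith [rad_le_one i]
    · rfl

lemma kk_notE (n : ℕ) (x : ℝ) {y : ℝ} (h : ∀ i, 2 * i + 2 ≤ n → y ∉ Es i) :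
    kk n x y = ch n x y := by
  rw [kk_eq, Finset.sum_eq_zero, add_zero]
  intro i _
  split_ifs with hi
  · rw [kk_out _ _ _ (not_lt.1 fun hc => h i hi (mem_Es.2 hc)), mul_zero]
  · rfl

lemma kk_E (n : ℕ) (x : ℝ) {y : ℝ} {i : ℕ} (h : y ∈ Es i) : kk n x y = ch n x y +
    if 2 * i + 2 ≤ n then 4 ^ (2 * i + 2) * kk (n - (2 * i + 2)) (sc i x) (sc i y) else 0 := by
  rw [kk_eq, Finset.sum_eq_single i]
  · intro j _ hj
    split_ifs with hi
    · rw [kk_out _ _ _ (not_lt.1 fun hc => hj (ann_unique (Es_ann (mem_Es.2 hc)) (Es_ann h))),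
        mul_zero]
    · rfl
  · intro hi
    rw [if_neg (by rw [Finset.mem_range] at hi; omega)]

lemma kk_cases (n : ℕ) (y : ℝ) : (∃ i, 2 * i + 2 ≤ n ∧ ∀ x, kk n x y =
    4 ^ (2 * i + 2) * kk (n - (2 * i + 2)) (sc i x) (sc i y)) ∨ ∀ x, kk n x y = ch n x y := by
  by_cases h : ∃ i, 2 * i + 2 ≤ n ∧ y ∈ Es i
  · obtain ⟨i, hi, hy⟩ := h
    refine Or.inl ⟨i, hi, fun x => ?_⟩
    rw [kk_E n x hy, if_pos hi, ch_far x ((rad_anti (by omega)).trans (Es_ann hy).1), zero_add]
  · push Not at h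
    exact Or.inr fun x => kk_notE n x h

lemma sc_sub (i : ℕ) (x y : ℝ) : |sc i x - sc i y| = 4 ^ (2 * i + 2) * |x - y| := by
  have h := four_mul_rad (2 * i + 2)
  rw [sc, sc, ← sub_div, sub_sub_sub_cancel_right, abs_div, abs_of_pos (sml_pos i),
    div_eq_iff (sml_pos i).ne', sml, mul_right_comm, h, one_mul]

lemma kk_le (n : ℕ) : ∀ x y, kk n x y ≤ 4 ^ n := by
  induction n using Nat.strong_induction_on with
  | _ n ih =>
    intro x y
    rcases kk_cases n y with ⟨i, hi, h⟩ | h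
    · rw [h]
      calc _ ≤ (4 : ℝ) ^ (2 * i + 2) * 4 ^ (n - (2 * i + 2)) := by
            gcongr; exact ih _ (by omega) _ _
        _ = _ := by rw [← pow_add]; congr 1; omega
    · rw [h]; exact ch_le _ _ _

lemma kk_near (n : ℕ) : ∀ x y, kk n x y ≠ 0 → 4 ^ n * |x - y| ≤ 2 := by
  induction n using Nat.strong_induction_on with
  | _ n ih =>
    intro x y h0
    rcases kk_cases n y with ⟨i, hi, h⟩ | h
    · rw [h] at h0
      have := ih _ (show n - (2 * i + 2) < n by omega) _ _ (right_ne_zero_of_mul h0)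
      rwa [sc_sub, ← mul_assoc, ← pow_add, show n - (2 * i + 2) + (2 * i + 2) = n by omega] at this
    · rw [h] at h0
      have h1 : |y| < rad n := not_le.1 fun hc => h0 (ch_far x hc)
      have h2 : |x| < rad n := not_le.1 fun hc => h0 (by rw [ch_symm]; exact ch_far y hc)
      have h3 : |x - y| ≤ 2 * rad n := (abs_sub _ _).trans (by linarith)
      calc (4 : ℝ) ^ n * |x - y| ≤ 4 ^ n * (2 * rad n) := by gcongr
        _ = 2 := by rw [mul_left_comm, four_mul_rad, mul_one]

lemma kk_lip (n : ℕ) : ∀ x x' y, |kk n x y - kk n x' y| ≤ 4 * 16 ^ n * |x - x'| := by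
  have e : ∀ k : ℕ, (16 : ℝ) ^ k = 4 ^ k * 4 ^ k := fun k => by rw [← mul_pow]; norm_num
  induction n using Nat.strong_induction_on with
  | _ n ih =>
    intro x x' y
    rcases kk_cases n y with ⟨i, hi, h⟩ | h
    · rw [h, h, ← mul_sub, abs_four_mul]
      have h1 := ih _ (show n - (2 * i + 2) < n by omega) (sc i x) (sc i x') (sc i y)
      rw [sc_sub] at h1
      have h2 : (16 : ℝ) ^ n = 16 ^ (n - (2 * i + 2)) * 16 ^ (2 * i + 2) := by
        rw [← pow_add]; congr 1; omega
      calc _ ≤ (4 : ℝ) ^ (2 * i + 2) * (4 * 16 ^ (n - (2 * i + 2)) *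
            (4 ^ (2 * i + 2) * |x - x'|)) := by gcongr
        _ = _ := by rw [h2, e (2 * i + 2)]; ring
    · rw [h, h, ch, ch, ← sub_mul, ← mul_sub, abs_mul, abs_four_mul,
        abs_of_nonneg (tent_nonneg _)]
      have h1 := tent_lip (4 ^ n * x) (4 ^ n * x')
      rw [← mul_sub, abs_four_mul] at h1
      have h2 := tent_le_one (4 ^ n * y)
      have h3 := tent_nonneg (4 ^ n * y)
      calc _ ≤ (4 : ℝ) ^ n * (4 * (4 ^ n * |x - x'|)) * 1 := by gcongr
        _ = _ := by rw [e]; ring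

lemma geo_ite {q z : ℝ} (hq : 2 ≤ q) (hz : 0 ≤ z) (N : ℕ) :
    ∑ n ∈ Finset.range N, (if q ^ n ≤ z then q ^ n else 0) ≤ 2 * z := by
  have key : ∀ N : ℕ, ∑ n ∈ Finset.range N, (if q ^ n ≤ z then q ^ n else 0) ≤ q ^ N ∧
      ∑ n ∈ Finset.range N, (if q ^ n ≤ z then q ^ n else 0) ≤ 2 * z := by
    intro N
    induction N with
    | zero => simp [hz]
    | succ N ih =>
      have h0 : 0 < q ^ N := by positivity
      rw [Finset.sum_range_succ, pow_succ]
      split_ifs with h
      · constructor <;> nlinarith [ih.1]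
      · constructor <;> nlinarith [ih.1, ih.2]
  exact (key N).2

noncomputable def Sr (N : ℕ) (x y : ℝ) : ℝ := ∑ n ∈ Finset.range N, kk n x y
noncomputable def KE (x y : ℝ) : ℝ≥0∞ := ∑' n, ENNReal.ofReal (kk n x y)
noncomputable def KR (x y : ℝ) : ℝ := (KE x y).toReal

lemma Sr_nonneg (N : ℕ) (x y : ℝ) : 0 ≤ Sr N x y := Finset.sum_nonneg fun n _ => kk_nonneg n x y

lemma Sr_le {x y : ℝ} (h : x ≠ y) (N : ℕ) : Sr N x y ≤ 4 / |x - y| := by
  have h0 : 0 < |x - y| := abs_pos.2 (sub_ne_zero.2 h)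
  refine le_trans (Finset.sum_le_sum fun n _ => ?_)
    ((geo_ite (q := 4) (z := 2 / |x - y|) (by norm_num) (by positivity) N).trans
      (le_of_eq (by ring)))
  split_ifs with hc
  · exact kk_le n x y
  · by_contra h1
    exact hc ((le_div_iff₀ h0).2 (kk_near n x y (not_le.1 h1).ne'))

lemma kk_summable {x y : ℝ} (h : x ≠ y) : Summable fun n => kk n x y :=
  summable_of_sum_range_le (fun n => kk_nonneg n x y) (Sr_le h)

lemma KE_eq {x y : ℝ} (h : x ≠ y) : KE x y = ENNReal.ofReal (∑' n, kk n x y) :=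
  (ENNReal.ofReal_tsum_of_nonneg (fun n => kk_nonneg n x y) (kk_summable h)).symm

lemma KR_eq {x y : ℝ} (h : x ≠ y) : KR x y = ∑' n, kk n x y := by
  rw [KR, KE_eq h, ENNReal.toReal_ofReal (tsum_nonneg fun n => kk_nonneg n x y)]

lemma KR_nonneg (x y : ℝ) : 0 ≤ KR x y := ENNReal.toReal_nonneg

lemma ofReal_KR {x y : ℝ} (h : x ≠ y) : ENNReal.ofReal (KR x y) = KE x y := by
  rw [KR_eq h, KE_eq h]

lemma KE_symm (x y : ℝ) : KE x y = KE y x := by simp only [KE, kk_symm _ x y]
lemma KR_symm (x y : ℝ) : KR x y = KR y x := by rw [KR, KR, KE_symm]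

lemma KR_le {x y : ℝ} (h : x ≠ y) : KR x y ≤ 4 / |x - y| := by
  rw [KR_eq h]
  exact Real.tsum_le_of_sum_range_le (fun n => kk_nonneg n x y) (Sr_le h)

lemma KR_lip {x x' y : ℝ} (h : x ≠ y) (h' : |x - x'| ≤ |x - y| / 2) :
    |KR x y - KR x' y| ≤ 128 * |x - x'| / |x - y| ^ 2 := by
  have h0 : 0 < |x - y| := abs_pos.2 (sub_ne_zero.2 h)
  have h1 : |x - y| / 2 ≤ |x' - y| := by
    have := abs_sub_le x x' y
    linarith
  have h2 : x' ≠ y := fun hc => by rw [hc, sub_self, abs_zero] at h1; linarith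
  have hb : ∀ N, ∑ n ∈ Finset.range N, ‖kk n x y - kk n x' y‖ ≤ 128 * |x - x'| / |x - y| ^ 2 := by
    intro N
    have := geo_ite (q := 16) (z := 16 / |x - y| ^ 2) (by norm_num) (by positivity) N
    calc _ ≤ ∑ n ∈ Finset.range N, 4 * |x - x'| *
          (if (16 : ℝ) ^ n ≤ 16 / |x - y| ^ 2 then 16 ^ n else 0) := by
          refine Finset.sum_le_sum fun n _ => ?_
          split_ifs with hc
          · exact (kk_lip n x x' y).trans (le_of_eq (by ring))
          · have h3 : ¬ (4 : ℝ) ^ n * |x - y| ≤ 4 := fun h3 => hc (by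
              rw [le_div_iff₀ (by positivity)]
              calc (16 : ℝ) ^ n * |x - y| ^ 2 = (4 ^ n * |x - y|) ^ 2 := by
                    rw [mul_pow, ← pow_mul, mul_comm n 2, pow_mul]; norm_num
                _ ≤ 4 ^ 2 := by gcongr
                _ = 16 := by norm_num)
            have h4 : kk n x y = 0 := by
              by_contra h4
              exact h3 ((kk_near n x y h4).trans (by norm_num))
            have h5 : kk n x' y = 0 := by
              by_contra h5
              have h6 := kk_near n x' y h5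
              have h7 : (4 : ℝ) ^ n * (|x - y| / 2) ≤ 4 ^ n * |x' - y| := by gcongr
              exact h3 (by linarith)
            simp [h4, h5]
      _ ≤ 4 * |x - x'| * (2 * (16 / |x - y| ^ 2)) := by
          rw [← Finset.mul_sum]; gcongr
      _ = _ := by ring
  rw [KR_eq h, KR_eq h2, ← (kk_summable h).tsum_sub (kk_summable h2), ← Real.norm_eq_abs]
  exact (norm_tsum_le_tsum_norm (summable_of_sum_range_le (fun _ => norm_nonneg _) hb)).trans
    (Real.tsum_le_of_sum_range_le (fun _ => norm_nonneg _) hb)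

lemma meas_KE : Measurable fun z : ℝ × ℝ => KE z.1 z.2 :=
  Measurable.tsum fun n => (kk_cont n).measurable.ennreal_ofReal

lemma KE_ge (i : ℕ) (x : ℝ) {y : ℝ} (hy : y ∈ Es i) :
    ENNReal.ofReal (ch i x y) + ENNReal.ofReal (4 ^ (2 * i + 2)) * KE (sc i x) (sc i y) ≤
      KE x y := by
  rw [KE, KE, ← (ENNReal.summable (f := fun n => ENNReal.ofReal (kk (n + (2 * i + 2)) x y))
    ).sum_add_tsum_nat_add' (f := fun n => ENNReal.ofReal (kk n x y)), ← ENNReal.tsum_mul_left]
  refine add_le_add ?_ (ENNReal.tsum_le_tsum fun n => ?_)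
  · refine le_trans ?_ (Finset.single_le_sum (f := fun n => ENNReal.ofReal (kk n x y))
      (fun _ _ => zero_le) (Finset.mem_range.2 (show i < 2 * i + 2 by omega)))
    rw [kk_E i x hy, if_neg (by omega), add_zero]
  · rw [← ENNReal.ofReal_mul (by positivity), kk_E _ x hy, if_pos (by omega), Nat.add_sub_cancel]
    exact ENNReal.ofReal_le_ofReal (le_add_of_nonneg_left (ch_nonneg _ _ _))

end Pool.Agent.H572Z.Ex
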