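import Mathlib
import Pool.Agent.H572Z.Ex.Ker
import Pool.Agent.H572Z.Sp.Op

set_option autoImplicit false

/-!
# The positive kernel defines a Calderon-Zygmund operator
-/

namespace Pool.Agent.H572Z.Ex

open MeasureTheory Set Metric Pool.Agent.H572Z.Sp
open scoped ENNReal

lemma Lpart {m g : ℕ} (hg : g + 1 ≤ m) (y : ℝ) :
    (∫⁻ z, ENNReal.ofReal (∑ n ∈ Finset.range (g + 1), ch n z y) *
      ENNReal.ofReal (V (bw 4 2 2 m) m m (g + 1) z)) + 32 ≤
      32 * ENNReal.ofReal (bw 4 2 2 m (lev m y)) := by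
  have hb : ∀ k, 0 < bw 4 2 2 m k := bw_pos (by norm_num) (by norm_num) (by norm_num)
  set F : ℝ → ℝ≥0∞ := fun z => ENNReal.ofReal (V (bw 4 2 2 m) m m (g + 1) z) with hF
  have hFm : Measurable F := (V_meas _).ennreal_ofReal
  have hlev : lev m y ≤ m := by
    by_contra h
    exact lt_irrefl _ (lt_lev.1 (not_le.1 h)).1
  have h1 : ∀ z, ENNReal.ofReal (∑ n ∈ Finset.range (g + 1), ch n z y) * F z ≤
      ∑ n ∈ Finset.range (lev m y), (Ps n).indicator (fun z => ENNReal.ofReal (4 ^ n) * F z) z := by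
    intro z
    rw [ENNReal.ofReal_sum_of_nonneg fun n _ => ch_nonneg n z y, Finset.sum_mul]
    calc _ ≤ ∑ n ∈ Finset.range (g + 1), if n < lev m y then
          (Ps n).indicator (fun z => ENNReal.ofReal (4 ^ n) * F z) z else 0 := by
          refine Finset.sum_le_sum fun n hn => ?_
          split_ifs with h
          · by_cases hz : z ∈ Ps n
            · rw [indicator_of_mem hz]
              gcongr
              exact ch_le n z y
            · rw [ch_symm, ch_far y (not_lt.1 fun hc => hz (mem_Ps.2 hc))]; simp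
          · rw [ch_far z (not_lt.1 fun hc => h (lt_lev.2
              ⟨by have := Finset.mem_range.1 hn; omega, hc⟩))]
            simp
      _ ≤ _ := by
          rw [← Finset.sum_filter]
          exact Finset.sum_le_sum_of_subset fun n hn =>
            Finset.mem_range.2 (Finset.mem_filter.1 hn).2
  have h2 : ∀ k ≤ m, ∑ n ∈ Finset.range k,
      (∫⁻ z, (Ps n).indicator (fun z => ENNReal.ofReal (4 ^ n) * F z) z) + 32 ≤ 32 * 2 ^ k := by
    intro k hk
    induction k with
    | zero => simp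
    | succ k ih =>
      rw [Finset.sum_range_succ, add_right_comm, pow_succ, mul_two, mul_add]
      refine add_le_add (ih (by omega)) ?_
      rw [lintegral_indicator (meas_Ps k), lintegral_const_mul _ hFm]
      have := dbl_P hb rfl le_rfl (le_refl (4 : ℝ)) (bw_le (by norm_num) (by norm_num) (by norm_num)
        le_rfl le_rfl) g (show k < m by omega)
      refine (mul_le_mul_right this _).trans (le_of_eq ?_)
      rw [← ENNReal.ofReal_mul (by positivity), bw_up (by omega)]
      have e : (4 : ℝ) ^ k * (8 * (4 * 2 ^ k * rad k)) = 32 * 2 ^ k * (4 ^ k * rad k) := by ring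
      rw [e, four_mul_rad, mul_one, ENNReal.ofReal_mul (by norm_num),
        ENNReal.ofReal_pow (by norm_num)]
      simp
  have h3 : ∀ k ≤ m, (2 : ℝ≥0∞) ^ k ≤ ENNReal.ofReal (bw 4 2 2 m k) := by
    intro k hk
    rw [← ENNReal.ofReal_ofNat, ← ENNReal.ofReal_pow (by norm_num)]
    refine ENNReal.ofReal_le_ofReal ?_
    cases k with
    | zero => simp [bw]
    | succ k =>
      rw [bw_up (by omega), pow_succ]
      have : (0 : ℝ) < 2 ^ k := by positivity
      linarith
  refine le_trans ?_ ((h2 _ hlev).trans (mul_le_mul_right (h3 _ hlev) _))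
  gcongr
  rw [← lintegral_finsetSum _ fun n _ => (hFm.const_mul _).indicator (meas_Ps n)]
  exact lintegral_mono h1

lemma meas_Sr (N : ℕ) : Measurable fun z : ℝ × ℝ => Sr N z.1 z.2 :=
  Finset.measurable_sum _ fun n _ => (kk_cont n).measurable

lemma Sr_E (g : ℕ) (z : ℝ) {y : ℝ} {i : ℕ} (hy : y ∈ Es i) :
    Sr (g + 1) z y ≤ ∑ n ∈ Finset.range (g + 1), ch n z y +
      4 ^ (2 * i + 2) * Sr g (sc i z) (sc i y) := by
  rw [Sr, Finset.sum_congr rfl fun n _ => kk_E n z hy, Finset.sum_add_distrib,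
    ← Finset.sum_filter, ← Finset.mul_sum]
  gcongr
  rw [Sr, ← Finset.sum_image (s := (Finset.range (g + 1)).filter (2 * i + 2 ≤ ·))
    (g := fun n => n - (2 * i + 2)) (f := fun n => kk n (sc i z) (sc i y))]
  · refine Finset.sum_le_sum_of_subset_of_nonneg (fun n hn => ?_) fun n _ _ => kk_nonneg _ _ _
    obtain ⟨k, hk, rfl⟩ := Finset.mem_image.1 hn
    simp only [Finset.mem_filter, Finset.mem_range] at hk ⊢
    omega
  · intro a ha c hc h
    simp only [Finset.coe_filter, mem_ofPred_eq] at ha hc h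
    omega

lemma schur_h {m : ℕ} : ∀ g ≤ m, ∀ y, (∫⁻ z, ENNReal.ofReal (Sr g z y) *
    ENNReal.ofReal (V (bw 4 2 2 m) m m g z)) + 32 ≤
      64 * ENNReal.ofReal (V (bw 4 2 2 m) m m g y) := by
  have hb : ∀ k, 0 < bw 4 2 2 m k := bw_pos (by norm_num) (by norm_num) (by norm_num)
  have h0 : bw 4 2 2 m 0 = 1 := rfl
  intro g
  induction g with
  | zero => intro _ y; simp [Sr, V]; norm_num
  | succ g ih =>
    intro hg y
    have hL := Lpart hg y
    by_cases hE : ∃ i < m, y ∈ Es i
    · obtain ⟨i, hi, hy⟩ := hE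
      set G : ℝ → ℝ≥0∞ := fun z => ENNReal.ofReal (Sr g z (sc i y)) *
        ENNReal.ofReal (V (bw 4 2 2 m) m m g z) with hG
      have hGm : Measurable G :=
        ((meas_Sr g).comp (measurable_id.prodMk measurable_const)).ennreal_ofReal.mul
          (V_meas g).ennreal_ofReal
      set β := ENNReal.ofReal (bw 4 2 2 m (i + 1)) with hβ
      have h1 : ∀ z, ENNReal.ofReal (Sr (g + 1) z y) *
          ENNReal.ofReal (V (bw 4 2 2 m) m m (g + 1) z) ≤
          β * ENNReal.ofReal (4 ^ (2 * i + 2)) * G (sc i z) +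
          ENNReal.ofReal (∑ n ∈ Finset.range (g + 1), ch n z y) *
            ENNReal.ofReal (V (bw 4 2 2 m) m m (g + 1) z) := by
        intro z
        refine (mul_le_mul_left (ENNReal.ofReal_le_ofReal (Sr_E g z hy)) _).trans ?_
        rw [ENNReal.ofReal_add (Finset.sum_nonneg fun n _ => ch_nonneg n z y)
          (mul_nonneg (by positivity) (Sr_nonneg _ _ _)), add_mul, add_comm]
        refine add_le_add ?_ le_rfl
        by_cases hz : z ∈ Es i
        · rw [V_ann h0 le_rfl g hi (Es_ann hz), ENNReal.ofReal_mul (hb _).le,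
            ENNReal.ofReal_mul (by positivity)]
          exact le_of_eq (by simp only [hG, hβ]; ring)
        · rw [Sr, Finset.sum_eq_zero fun n _ => by
            rw [kk_symm, kk_out n _ _ (not_lt.1 fun hc => hz (mem_Es.2 hc))]]
          simp
      have h2 : ∫⁻ z, β * ENNReal.ofReal (4 ^ (2 * i + 2)) * G (sc i z) = β * ∫⁻ z, G z := by
        rw [lintegral_const_mul' _ _ (by finiteness), lint_sc i hGm, mul_assoc, ← mul_assoc _ _
          (∫⁻ z, G z), ← ENNReal.ofReal_mul (by positivity), sml, four_mul_rad]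
        simp
      rw [lev_ann hi (Es_ann hy)] at hL
      rw [V_ann h0 le_rfl g hi (Es_ann hy), ENNReal.ofReal_mul (hb _).le]
      refine (add_le_add_left (lintegral_mono h1) _).trans ?_
      rw [lintegral_add_left (f := fun z => β * ENNReal.ofReal (4 ^ (2 * i + 2)) * G (sc i z))
        ((hGm.comp (meas_sc i)).const_mul _), add_assoc]
      refine (add_le_add h2.le hL).trans ?_
      calc β * (∫⁻ z, G z) + 32 * β = β * ((∫⁻ z, G z) + 32) := by ring
        _ ≤ β * (64 * ENNReal.ofReal (V (bw 4 2 2 m) m m g (sc i y))) :=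
            mul_le_mul_right (ih (by omega) _) _
        _ = _ := by ring
    · push Not at hE
      have h1 : ∀ z, Sr (g + 1) z y = ∑ n ∈ Finset.range (g + 1), ch n z y := fun z =>
        Finset.sum_congr rfl fun n hn => kk_notE n z fun i hi =>
          hE i (by have := Finset.mem_range.1 hn; omega)
      simp only [h1]
      rw [V_notE h0 g hE]
      exact hL.trans (by gcongr; norm_num)

lemma cs {X : Type*} [MeasurableSpace X] (μ : Measure X) {a b c : X → ℝ≥0∞} (ha : Measurable a)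
    (hb : Measurable b) (h : ∀ y, c y ^ 2 ≤ a y * b y) :
    (∫⁻ y, c y ∂μ) ^ 2 ≤ (∫⁻ y, a y ∂μ) * ∫⁻ y, b y ∂μ := by
  have e : ∀ z : ℝ≥0∞, (z ^ (1 / 2 : ℝ)) ^ (2 : ℝ) = z := fun z => by
    rw [← ENNReal.rpow_mul]; norm_num
  have h1 := ENNReal.lintegral_mul_le_Lp_mul_Lq μ Real.HolderConjugate.two_two
    (f := fun y => a y ^ (1 / 2 : ℝ)) (g := fun y => b y ^ (1 / 2 : ℝ))
    (ha.pow_const _).aemeasurable (hb.pow_const _).aemeasurable
  simp only [e] at h1
  have h2 : ∫⁻ y, c y ∂μ ≤ ∫⁻ y, ((fun y => a y ^ (1 / 2 : ℝ)) * fun y => b y ^ (1 / 2 : ℝ)) y ∂μ := by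
    refine lintegral_mono fun y => ?_
    rw [Pi.mul_apply, ← ENNReal.mul_rpow_of_nonneg _ _ (by norm_num)]
    refine le_trans (le_of_eq ?_) (ENNReal.rpow_le_rpow (h y) (by norm_num))
    rw [← ENNReal.rpow_natCast, ← ENNReal.rpow_mul]; norm_num
  refine (pow_le_pow_left' (h2.trans h1) 2).trans (le_of_eq ?_)
  rw [← ENNReal.mul_rpow_of_nonneg _ _ (by norm_num), ← ENNReal.rpow_natCast]
  exact_mod_cast e _

lemma schur {K : ℝ → ℝ → ℝ≥0∞} (hK : Measurable fun z : ℝ × ℝ => K z.1 z.2)
    (hs : ∀ x y, K x y = K y x) {h : ℝ → ℝ≥0∞} (hh : Measurable h) (h0 : ∀ y, h y ≠ 0)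
    (ht : ∀ y, h y ≠ ⊤) {C : ℝ≥0∞} (hC : C ≠ ⊤) (H : ∀ y, ∫⁻ z, K z y * h z ≤ C * h y)
    {F : ℝ → ℝ≥0∞} (hF : Measurable F) :
    ∫⁻ x, (∫⁻ y, K x y * F y) ^ 2 ≤ C ^ 2 * ∫⁻ y, F y ^ 2 := by
  have hKx : ∀ x, Measurable (K x) := fun x => hK.comp (measurable_const.prodMk measurable_id)
  have hKy : ∀ y, Measurable (K · y) := fun y => hK.comp (measurable_id.prodMk measurable_const)
  calc _ ≤ ∫⁻ x, C * ∫⁻ y, K x y * h x * (F y ^ 2 / h y) := by
        refine lintegral_mono fun x => ?_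
        refine (cs volume (a := fun y => K x y * h y) (b := fun y => K x y * (F y ^ 2 / h y))
          ((hKx x).mul hh) ((hKx x).mul ((hF.pow_const 2).div hh)) fun y => le_of_eq ?_).trans ?_
        · calc (K x y * F y) ^ 2 = K x y ^ 2 * (h y * (F y ^ 2 / h y)) := by
                rw [ENNReal.mul_div_cancel (h0 y) (ht y), mul_pow]
            _ = _ := by ring
        · simp only [hs x]
          refine (mul_le_mul_left (H x) _).trans (le_of_eq ?_)
          rw [mul_assoc, ← lintegral_const_mul' _ _ (ht x)]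
          congr 1
          exact lintegral_congr fun y => by ring
    _ = C * ∫⁻ y, (∫⁻ x, K x y * h x) * (F y ^ 2 / h y) := by
        rw [lintegral_const_mul' _ _ hC, lintegral_lintegral_swap
          (((hK.mul (hh.comp measurable_fst)).mul
            (((hF.pow_const 2).div hh).comp measurable_snd)).aemeasurable)]
        congr 1
        exact lintegral_congr fun y => lintegral_mul_const _ ((hKy y).mul hh)
    _ ≤ C * ∫⁻ y, C * F y ^ 2 := by
        refine mul_le_mul_right (lintegral_mono fun y => ?_) _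
        refine (mul_le_mul_left (H y) _).trans (le_of_eq ?_)
        rw [mul_assoc, ENNReal.mul_div_cancel (h0 y) (ht y)]
    _ = _ := by rw [lintegral_const_mul' _ _ hC, ← mul_assoc, ← sq]

/-- The positive operator with kernel `KE`. -/
noncomputable def TE (F : ℝ → ℝ≥0∞) (x : ℝ) : ℝ≥0∞ := ∫⁻ y, KE x y * F y

lemma meas_TE {F : ℝ → ℝ≥0∞} (hF : Measurable F) : Measurable (TE F) :=
  (meas_KE.mul (hF.comp measurable_snd)).lintegral_prod_right'

lemma TE_l2 {F : ℝ → ℝ≥0∞} (hF : Measurable F) : ∫⁻ x, TE F x ^ 2 ≤ 64 ^ 2 * ∫⁻ y, F y ^ 2 := by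
  have hm : ∀ g, Measurable fun z : ℝ × ℝ => ENNReal.ofReal (Sr g z.1 z.2) * F z.2 := fun g =>
    (meas_Sr g).ennreal_ofReal.mul (hF.comp measurable_snd)
  have hmono : ∀ x y, Monotone fun g => ENNReal.ofReal (Sr g x y) * F y := fun x y a c hac =>
    mul_le_mul_left (ENNReal.ofReal_le_ofReal (Finset.sum_le_sum_of_subset_of_nonneg
      (Finset.range_mono hac) fun n _ _ => kk_nonneg n x y)) _
  have e : ∀ x, TE F x ^ 2 = ⨆ g, (∫⁻ y, ENNReal.ofReal (Sr g x y) * F y) ^ 2 := by
    intro x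
    rw [← ENNReal.iSup_pow, ← lintegral_iSup (f := fun g y => ENNReal.ofReal (Sr g x y) * F y)
      (fun g => (hm g).comp (measurable_const.prodMk measurable_id))
      (fun a c hac y => hmono x y hac), TE]
    congr 1
    refine lintegral_congr fun y => ?_
    rw [KE, ENNReal.tsum_eq_iSup_nat, ENNReal.iSup_mul]
    simp only [Sr, ENNReal.ofReal_sum_of_nonneg fun n _ => kk_nonneg n x y]
  simp only [e]
  rw [lintegral_iSup (fun g => ((hm g).lintegral_prod_right').pow_const 2)
    (fun a c hac x => pow_le_pow_left' (lintegral_mono fun y => hmono x y hac) 2)]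
  refine iSup_le fun g => schur (K := fun x y => ENNReal.ofReal (Sr g x y))
    (meas_Sr g).ennreal_ofReal (fun x y => by simp only [Sr, kk_symm _ x y])
    (h := fun z => ENNReal.ofReal (V (bw 4 2 2 g) g g g z)) (V_meas g).ennreal_ofReal
    (fun y => (ENNReal.ofReal_pos.2 (V_pos (bw_pos (by norm_num) (by norm_num) (by norm_num))
      g y)).ne') (fun y => ENNReal.ofReal_ne_top) (by norm_num)
    (fun y => le_self_add.trans (schur_h g le_rfl y)) hF

/-! ### The operator on `E 1` -/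

noncomputable def co : E 1 ≃ᵐ ℝ :=
  (MeasurableEquiv.toLp 2 (Fin 1 → ℝ)).symm.trans (MeasurableEquiv.funUnique (Fin 1) ℝ)

lemma co_apply (x : E 1) : co x = x 0 := rfl

lemma co_mp : MeasurePreserving co volume volume :=
  (EuclideanSpace.volume_preserving_symm_measurableEquiv_toLp (Fin 1)).trans
    (volume_preserving_funUnique (Fin 1) ℝ)

lemma lint_co (G : ℝ → ℝ≥0∞) : ∫⁻ x : E 1, G (co x) = ∫⁻ t, G t :=
  co_mp.lintegral_comp_emb co.measurableEmbedding G

lemma norm_co (x y : E 1) : ‖x - y‖ = |co x - co y| := by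
  rw [EuclideanSpace.norm_eq]
  simp [Real.sqrt_sq_eq_abs, co_apply]

noncomputable def K1 (x y : E 1) : ℂ := (KR (co x) (co y) : ℝ)

noncomputable def T1 (f : E 1 → ℂ) (x : E 1) : ℂ := ∫ y, K1 x y * f y

lemma meas_K1 : Measurable fun z : E 1 × E 1 => K1 z.1 z.2 :=
  Complex.measurable_ofReal.comp (meas_KE.comp ((co.measurable.comp measurable_fst).prodMk
    (co.measurable.comp measurable_snd))).ennreal_toReal

lemma enorm_K1 (x y : E 1) : ‖K1 x y‖ₑ = ENNReal.ofReal (KR (co x) (co y)) := by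
  rw [K1, ← ofReal_norm, Complex.norm_real, Real.norm_of_nonneg (KR_nonneg _ _)]

lemma K1_kernel : IsKernel K1 := by
  refine ⟨256, 1, one_pos, le_rfl, fun x y h => ?_, fun x x' y h h' => ?_⟩
  · have h1 : co x ≠ co y := fun hc => h (co.injective hc)
    have h0 : 0 < |co x - co y| := abs_pos.2 (sub_ne_zero.2 h1)
    rw [K1, Complex.norm_real, Real.norm_of_nonneg (KR_nonneg _ _), norm_co, Nat.cast_one,
      Real.rpow_neg_one, ← div_eq_mul_inv]
    exact (KR_le h1).trans (by gcongr; norm_num)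
  · have h1 : co x ≠ co y := fun hc => h (co.injective hc)
    have h0 : 0 < |co x - co y| := abs_pos.2 (sub_ne_zero.2 h1)
    rw [norm_co, norm_co] at h'
    have h2 := KR_lip h1 h'
    rw [K1, K1, K1, K1, KR_symm (co y), KR_symm (co y), ← Complex.ofReal_sub, Complex.norm_real,
      Real.norm_eq_abs, norm_co, norm_co, Nat.cast_one, Real.rpow_one,
      show (-1 - 1 : ℝ) = -(2 : ℕ) by norm_num, Real.rpow_neg h0.le, Real.rpow_natCast,
      ← div_eq_mul_inv]
    have e : 256 * |co x - co x'| / |co x - co y| ^ 2 =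
      2 * (128 * |co x - co x'| / |co x - co y| ^ 2) := by ring
    linarith

lemma T1_aux {f : E 1 → ℂ} (hf : MemLp f 2 volume) : ∃ Φ : E 1 → ℝ≥0∞, Measurable Φ ∧
    (∀ x, ∫⁻ y, ‖K1 x y * f y‖ₑ ≤ Φ x) ∧ ∫⁻ x, Φ x ^ 2 ≤ 64 ^ 2 * ∫⁻ x, ‖f x‖ₑ ^ 2 := by
  have ha : AEMeasurable (fun y => ‖f y‖ₑ) volume := hf.1.enorm
  set F : ℝ → ℝ≥0∞ := fun t => ha.mk _ (co.symm t) with hF
  have hFm : Measurable F := ha.measurable_mk.comp co.symm.measurable
  have hFe : ∀ᵐ y, ‖f y‖ₑ = F (co y) := by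
    filter_upwards [ha.ae_eq_mk] with y hy
    simp only [hF, MeasurableEquiv.symm_apply_apply, hy]
  refine ⟨fun x => TE F (co x), (meas_TE hFm).comp co.measurable, fun x => ?_, ?_⟩
  · beta_reduce
    rw [TE, ← lint_co]
    refine lintegral_mono_ae (hFe.mono fun y hy => ?_)
    rw [enorm_mul, enorm_K1, hy]
    gcongr
    exact ENNReal.ofReal_toReal_le
  · rw [lint_co (fun t => TE F t ^ 2)]
    refine (TE_l2 hFm).trans (le_of_eq ?_)
    rw [← lint_co]
    congr 1
    exact lintegral_congr_ae (hFe.mono fun y hy => by simp only [hy])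

lemma T1_int {f : E 1 → ℂ} (hf : MemLp f 2 volume) :
    ∀ᵐ x, Integrable (fun y => K1 x y * f y) volume := by
  obtain ⟨Φ, h1, h2, h3⟩ := T1_aux hf
  have h4 : ∫⁻ x, Φ x ^ 2 ≠ ⊤ :=
    ne_top_of_le_ne_top (ENNReal.mul_ne_top (by norm_num) (l2_ne_top hf)) h3
  filter_upwards [ae_lt_top (h1.pow_const 2) h4] with x hx
  refine ⟨(meas_K1.comp (measurable_const.prodMk measurable_id)).aestronglyMeasurable.mul hf.1,
    (h2 x).trans_lt (lt_top_iff_ne_top.2 fun hc => ?_)⟩
  rw [hc] at hx
  simp at hx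

theorem T1_czo : IsCZO T1 := by
  refine ⟨⟨fun f g hf hg => ?_, fun c f _ => Filter.Eventually.of_forall fun x => ?_,
    64, fun f hf => ?_⟩, K1, K1_kernel, fun f _ _ => Filter.Eventually.of_forall fun x _ => rfl⟩
  · filter_upwards [T1_int hf, T1_int hg] with x h1 h2
    simp only [T1, Pi.add_apply, mul_add]
    exact integral_add h1 h2
  · simp only [T1, mul_left_comm _ c]
    exact integral_const_mul _ _
  · obtain ⟨Φ, h1, h2, h3⟩ := T1_aux hf
    have h4 : eLpNorm (T1 f) 2 volume ≤ (64 : NNReal) * eLpNorm f 2 volume := by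
      rw [← ENNReal.pow_le_pow_left_iff (n := 2) (by norm_num), mul_pow, eLpNorm_sq, eLpNorm_sq]
      refine le_trans (lintegral_mono fun x => ?_) (h3.trans (le_of_eq (by norm_num)))
      exact pow_le_pow_left' ((enorm_integral_le_lintegral_enorm _).trans (h2 x)) 2
    refine ⟨⟨?_, h4.trans_lt (ENNReal.mul_lt_top ENNReal.coe_lt_top hf.2)⟩, h4⟩
    exact (meas_K1.aestronglyMeasurable.mul hf.1.comp_snd).integral_prod_right'

/-- On nonnegative functions the operator is the positive operator `TE`. -/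
lemma T1_enorm {F : ℝ → ℝ} (h0 : ∀ t, 0 ≤ F t)
    (hf : MemLp (fun y : E 1 => (F (co y) : ℂ)) 2 volume) :
    ∀ᵐ x, ‖T1 (fun y => (F (co y) : ℂ)) x‖ₑ = TE (fun t => ENNReal.ofReal (F t)) (co x) := by
  filter_upwards [T1_int hf] with x hx
  have e : ∀ y, K1 x y * (F (co y) : ℂ) = ((KR (co x) (co y) * F (co y) : ℝ) : ℂ) := fun y => by
    rw [K1, Complex.ofReal_mul]
  have hp : ∀ y, 0 ≤ KR (co x) (co y) * F (co y) := fun y => mul_nonneg (KR_nonneg _ _) (h0 _)
  simp only [e] at hx
  have hi : Integrable (fun y => KR (co x) (co y) * F (co y)) volume := by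
    simpa using hx.re
  rw [T1]
  simp only [e]
  rw [integral_complex_ofReal, ← ofReal_norm, Complex.norm_real,
    Real.norm_of_nonneg (integral_nonneg hp),
    ofReal_integral_eq_lintegral_ofReal hi (Filter.Eventually.of_forall hp),
    lint_co (fun t => ENNReal.ofReal (KR (co x) t * F t)), TE]
  refine lintegral_congr_ae ?_
  filter_upwards [compl_mem_ae_iff.2 (measure_singleton (co x))] with t ht
  rw [ENNReal.ofReal_mul (KR_nonneg _ _), ofReal_KR (Ne.symm ht)]

end Pool.Agent.H572Z.Ex
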