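import Mathlib
import Pool.Agent.H572Z.Ex.Schur

set_option autoImplicit false

/-!
# The test function and the lower bound for the pairing
-/

namespace Pool.Agent.H572Z.Ex

open MeasureTheory Set Metric
open scoped ENNReal NNReal

noncomputable def fn (c : ℕ → ℝ) (m N : ℕ) : ℕ → ℝ → ℝ
  | 0, _ => 0
  | g + 1, x => (if |x| < rad m then c (lev N x) else 0) +
      ∑ i ∈ Finset.range m, fn c m N g (sc i x)

variable {b c : ℕ → ℝ} {m N : ℕ}

lemma fn_nonneg (hc : ∀ k, 0 < c k) (g : ℕ) (x : ℝ) : 0 ≤ fn c m N g x := by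
  induction g generalizing x with
  | zero => exact le_rfl
  | succ g ih =>
    refine add_nonneg ?_ (Finset.sum_nonneg fun i _ => ih _)
    split_ifs
    · exact (hc _).le
    · exact le_rfl

lemma fn_meas (g : ℕ) : Measurable (fn c m N g) := by
  induction g with
  | zero => exact measurable_const
  | succ g ih =>
    exact (Measurable.ite (measurableSet_lt (by fun_prop) measurable_const) (meas_b c N)
      measurable_const).add (Finset.measurable_sum _ fun i _ => ih.comp (meas_sc i))

lemma fn_out (g : ℕ) {x : ℝ} (h : 1 ≤ |x|) : fn c m N g x = 0 := by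
  induction g generalizing x with
  | zero => rfl
  | succ g ih =>
    rw [fn, if_neg (not_lt.2 ((rad_le_one m).trans h)), zero_add]
    refine Finset.sum_eq_zero fun i _ => ih (not_lt.1 fun hc => ?_)
    have := (Es_ann (mem_Es.2 hc)).2
    linarith [rad_le_one i]

lemma fn_bdd (hc : ∀ k, 0 < c k) (g : ℕ) : ∃ M : ℝ, ∀ x, fn c m N g x ≤ M := by
  induction g with
  | zero => exact ⟨0, fun _ => le_rfl⟩
  | succ g ih =>
    obtain ⟨M, hM⟩ := ih
    refine ⟨∑ k ∈ Finset.range (N + 1), c k + ∑ _i ∈ Finset.range m, M, fun x =>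
      add_le_add ?_ (Finset.sum_le_sum fun i _ => hM _)⟩
    have h1 : lev N x < N + 1 := by
      by_contra h
      exact lt_irrefl _ (lt_lev.1 (show N < lev N x by omega)).1
    have h2 := Finset.single_le_sum (f := c) (fun k _ => (hc k).le) (Finset.mem_range.2 h1)
    split_ifs
    · exact h2
    · exact (hc _).le.trans h2

lemma fn_notE (g : ℕ) {x : ℝ} (h : ∀ i < m, x ∉ Es i) :
    fn c m N (g + 1) x = if |x| < rad m then c (lev N x) else 0 := by
  rw [fn, Finset.sum_eq_zero, add_zero]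
  exact fun i hi => fn_out g (not_lt.1 fun hc => h i (Finset.mem_range.1 hi) (mem_Es.2 hc))

lemma fn_E (g : ℕ) {i : ℕ} (hi : i < m) {x : ℝ} (h : x ∈ Es i) :
    fn c m N (g + 1) x = fn c m N g (sc i x) := by
  rw [fn, if_neg (not_lt.2 ((rad_anti (by omega)).trans (Es_ann h).1)), zero_add,
    Finset.sum_eq_single i]
  · exact fun j _ hj => fn_out g (not_lt.1 fun hc =>
      hj (ann_unique (Es_ann (mem_Es.2 hc)) (Es_ann h)))
  · exact fun hc => absurd (Finset.mem_range.2 hi) hc

lemma Y_le (hb : ∀ k, 0 < b k) (h0 : b 0 = 1) (hm : m ≤ N) {p X : ℝ}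
    (hp : 0 < p) (hX0 : 0 ≤ X) (hcb : ∀ k, c k ^ p * b k = c k)
    (hX : mo (fun x => c (lev N x)) (Ps 0) ≤ ENNReal.ofReal X)
    (hl : ∑ i ∈ Finset.range m, b (i + 1) * sml i ≤ 1) (g : ℕ) :
    ∫⁻ x, ENNReal.ofReal (fn c m N g x ^ p * V b m N g x) ≤ ENNReal.ofReal (X * g) := by
  induction g with
  | zero => simp [fn, Real.zero_rpow hp.ne']
  | succ g ih =>
    set G : ℝ → ℝ≥0∞ := fun x => ENNReal.ofReal (fn c m N g x ^ p * V b m N g x) with hG
    have hGm : Measurable G := (((fn_meas g).pow_const p).mul (V_meas g)).ennreal_ofReal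
    have hm2 : ∀ i, Measurable ((Es i).indicator fun x => ENNReal.ofReal (b (i + 1)) * G (sc i x)) :=
      fun i => ((hGm.comp (meas_sc i)).const_mul _).indicator (meas_Es i)
    have h1 : ∀ x, ENNReal.ofReal (fn c m N (g + 1) x ^ p * V b m N (g + 1) x) ≤
        (Ps 0).indicator (fun x => ENNReal.ofReal (c (lev N x))) x +
        ∑ i ∈ Finset.range m, (Es i).indicator
          (fun x => ENNReal.ofReal (b (i + 1)) * G (sc i x)) x := by
      intro x
      by_cases hE : ∃ i < m, x ∈ Es i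
      · obtain ⟨i, hi, hx⟩ := hE
        refine le_add_left (le_trans ?_ (Finset.single_le_sum (f := fun i => (Es i).indicator
          (fun x => ENNReal.ofReal (b (i + 1)) * G (sc i x)) x) (fun _ _ => zero_le)
          (Finset.mem_range.2 hi)))
        rw [indicator_of_mem hx, fn_E g hi hx, V_ann h0 hm g hi (Es_ann hx), hG,
          ← ENNReal.ofReal_mul (hb _).le]
        exact le_of_eq (by congr 1; ring)
      · push Not at hE
        refine le_add_right ?_
        rw [fn_notE g hE, V_notE h0 g hE]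
        split_ifs with h
        · rw [hcb, indicator_of_mem (mem_Ps.2 (h.trans_le (rad_anti (Nat.zero_le m))))]
        · simp [Real.zero_rpow hp.ne']
    refine (lintegral_mono h1).trans ?_
    rw [lintegral_add_left ((meas_b c N).ennreal_ofReal.indicator (meas_Ps 0)),
      lintegral_indicator (meas_Ps 0), lintegral_finsetSum _ fun i _ => hm2 i]
    have h2 : ∑ i ∈ Finset.range m, ∫⁻ x, (Es i).indicator
        (fun x => ENNReal.ofReal (b (i + 1)) * G (sc i x)) x ≤ ENNReal.ofReal (X * g) := by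
      calc _ ≤ ∑ i ∈ Finset.range m, ENNReal.ofReal (b (i + 1) * sml i) *
            ENNReal.ofReal (X * g) := by
            refine Finset.sum_le_sum fun i _ => ?_
            rw [lintegral_indicator (meas_Es i), lintegral_const_mul' _ _ ENNReal.ofReal_ne_top,
              lint_E i hGm, ENNReal.ofReal_mul (hb _).le, mul_assoc]
            gcongr
            exact (setLIntegral_le_lintegral _ _).trans ih
        _ ≤ 1 * ENNReal.ofReal (X * g) := by
            rw [← Finset.sum_mul, ← ENNReal.ofReal_sum_of_nonneg fun i _ =>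
              (mul_pos (hb _) (sml_pos i)).le]
            gcongr
            exact ENNReal.ofReal_le_one.2 hl
        _ = _ := one_mul _
    refine (add_le_add hX h2).trans (le_of_eq ?_)
    rw [← ENNReal.ofReal_add hX0 (by positivity)]
    congr 1
    push_cast
    ring

lemma TE_step (hc : ∀ k, 0 < c k) (g : ℕ) {i : ℕ} (hi : i < m) {x : ℝ} (hx : x ∈ Es i) :
    ENNReal.ofReal (4 ^ i) * mo (fun y => c (lev N y)) (Ps m ∩ Iio 0) +
      TE (fun y => ENNReal.ofReal (fn c m N g y)) (sc i x) ≤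
      TE (fun y => ENNReal.ofReal (fn c m N (g + 1) y)) x := by
  have hs : MeasurableSet (Ps m ∩ Iio 0) := (meas_Ps m).inter measurableSet_Iio
  set G : ℝ → ℝ≥0∞ := fun y => KE (sc i x) y * ENNReal.ofReal (fn c m N g y) with hG
  have hGm : Measurable G := (meas_KE.comp (measurable_const.prodMk measurable_id)).mul
    (fn_meas g).ennreal_ofReal
  have e : TE (fun y => ENNReal.ofReal (fn c m N g y)) (sc i x) =
      ∫⁻ y, ENNReal.ofReal (4 ^ (2 * i + 2)) * G (sc i y) := by
    rw [lintegral_const_mul' _ _ ENNReal.ofReal_ne_top, lint_sc i hGm, ← mul_assoc,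
      ← ENNReal.ofReal_mul (by positivity), sml, four_mul_rad]
    simp [TE, hG]
  rw [e, mo, ← lintegral_const_mul' _ _ ENNReal.ofReal_ne_top, ← lintegral_indicator hs,
    ← lintegral_add_left (((meas_b c N).ennreal_ofReal.const_mul _).indicator hs), TE]
  refine lintegral_mono fun y => ?_
  beta_reduce
  rw [KE_symm x y]
  refine le_trans ?_ (mul_le_mul_left (KE_ge i y hx) _)
  rw [add_mul]
  refine add_le_add ?_ ?_
  · by_cases hy : y ∈ Ps m ∩ Iio 0
    · have h1 := mem_Ps.1 hy.1
      have h2 : |y| < rad i / 4 := by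
        rw [← rad_succ]; exact h1.trans_le (rad_anti (by omega))
      have h3 := Es_bd hx
      have h4 := rad_pos i
      have h5 := four_mul_rad i
      have h6 : (0 : ℝ) < 4 ^ i := by positivity
      rw [indicator_of_mem hy, ch, tent_one (u := 4 ^ i * y) (by rw [abs_four_mul]; nlinarith),
        tent_one (u := 4 ^ i * x) (by
          rw [abs_four_mul, abs_of_pos (by linarith [h3.1])]; nlinarith [h3.2]), mul_one, mul_one]
      gcongr
      rw [fn, if_pos h1]
      exact le_add_of_nonneg_right (Finset.sum_nonneg fun j _ => fn_nonneg hc g _)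
    · rw [indicator_of_notMem hy]; exact zero_le
  · simp only [hG]
    rw [mul_assoc, KE_symm (sc i y)]
    gcongr
    rw [fn]
    refine le_add_of_nonneg_of_le ?_ (Finset.single_le_sum (f := fun j => fn c m N g (sc j y))
      (fun j _ => fn_nonneg hc g _) (Finset.mem_range.2 hi))
    split_ifs
    · exact (hc _).le
    · exact le_rfl

/-- The pairing of the image of the test function with the weight. -/
noncomputable def Zp (b c : ℕ → ℝ) (m N g : ℕ) : ℝ≥0∞ :=
  ∫⁻ x in Ps 0, TE (fun y => ENNReal.ofReal (fn c m N g y)) x * ENNReal.ofReal (V b m N g x)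

lemma Z_step (hb : ∀ k, 0 < b k) (h0 : b 0 = 1) (hm : m ≤ N) (hc : ∀ k, 0 < c k) (g : ℕ) :
    ENNReal.ofReal (∑ i ∈ Finset.range m, b (i + 1) * sml i * 4 ^ i) *
      (mo (fun y => c (lev N y)) (Ps m ∩ Iio 0) * mo (V b m N g) (Ps 0)) +
      ENNReal.ofReal (∑ i ∈ Finset.range m, b (i + 1) * sml i) * Zp b c m N g ≤
      Zp b c m N (g + 1) := by
  rw [ENNReal.ofReal_sum_of_nonneg fun i _ => (mul_pos (hb _) (sml_pos i)).le,
    ENNReal.ofReal_sum_of_nonneg fun i _ =>
      (mul_pos (mul_pos (hb _) (sml_pos i)) (by positivity)).le, Finset.sum_mul, Finset.sum_mul,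
    ← Finset.sum_add_distrib]
  refine le_trans (Finset.sum_le_sum fun i hi => ?_) (sum_lint_le (Finset.range m) Es meas_Es
    (fun i _ k _ x h1 h2 => ann_unique (Es_ann h1) (Es_ann h2)) (fun i _ x hx =>
      mem_Ps.2 ((Es_ann hx).2.trans_le (rad_anti (Nat.zero_le i)))) _)
  have hi' := Finset.mem_range.1 hi
  set σ := ENNReal.ofReal (4 ^ i) * mo (fun y => c (lev N y)) (Ps m ∩ Iio 0) with hσ
  have hV : Measurable fun x => ENNReal.ofReal (V b m N g x) := (V_meas g).ennreal_ofReal
  have hT : Measurable (TE fun y => ENNReal.ofReal (fn c m N g y)) :=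
    meas_TE (fn_meas g).ennreal_ofReal
  set G : ℝ → ℝ≥0∞ := fun x => σ * ENNReal.ofReal (V b m N g x) +
    TE (fun y => ENNReal.ofReal (fn c m N g y)) x * ENNReal.ofReal (V b m N g x) with hG
  have hGm : Measurable G := (hV.const_mul _).add (hT.mul hV)
  calc _ = ENNReal.ofReal (b (i + 1)) * (ENNReal.ofReal (sml i) * ∫⁻ x in Ps 0, G x) := by
        rw [hG, lintegral_add_left (hV.const_mul _), lintegral_const_mul _ hV,
          ENNReal.ofReal_mul (mul_pos (hb _) (sml_pos i)).le, ENNReal.ofReal_mul (hb _).le, hσ,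
          Zp, mo, mo]
        ring
    _ = ∫⁻ x in Es i, ENNReal.ofReal (b (i + 1)) * G (sc i x) := by
        rw [lintegral_const_mul' _ _ ENNReal.ofReal_ne_top, lint_E i hGm]
    _ ≤ _ := by
        refine setLIntegral_mono' (meas_Es i) fun x hx => ?_
        rw [V_ann h0 hm g hi' (Es_ann hx), ENNReal.ofReal_mul (hb _).le]
        refine le_trans (le_of_eq ?_) (mul_le_mul_left (TE_step hc g hi' hx) _)
        rw [hG, hσ]
        ring

lemma x_low (hb : ∀ k, 0 < b k) (h0 : b 0 = 1) (hm : m ≤ N) {ξ : ℝ} (hξ0 : 0 ≤ ξ)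
    (hξ : ξ ≤ 3 / 4 * ∑ i ∈ Finset.range m, b (i + 1) * rad i)
    (hl : 1 ≤ ∑ i ∈ Finset.range m, b (i + 1) * sml i) (g : ℕ) :
    ENNReal.ofReal (ξ * g) ≤ mo (V b m N g) (Ps 0) := by
  induction g with
  | zero => simp
  | succ g ih =>
    refine le_trans ?_ (mo_low hb h0 hm g)
    push_cast
    rw [mul_add, mul_one, add_comm, ENNReal.ofReal_add hξ0 (by positivity)]
    exact add_le_add (ENNReal.ofReal_le_ofReal hξ)
      (ih.trans (le_mul_of_one_le_left' (ENNReal.one_le_ofReal.2 hl)))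

lemma Z_low (hb : ∀ k, 0 < b k) (h0 : b 0 = 1) (hm : m ≤ N) (hc : ∀ k, 0 < c k) {ξ μ σ : ℝ}
    (hξ0 : 0 ≤ ξ) (hμ0 : 0 ≤ μ) (hσ0 : 0 ≤ σ)
    (hξ : ξ ≤ 3 / 4 * ∑ i ∈ Finset.range m, b (i + 1) * rad i)
    (hl : 1 ≤ ∑ i ∈ Finset.range m, b (i + 1) * sml i)
    (hμ : μ ≤ ∑ i ∈ Finset.range m, b (i + 1) * sml i * 4 ^ i)
    (hσ : ENNReal.ofReal σ ≤ mo (fun y => c (lev N y)) (Ps m ∩ Iio 0)) (g : ℕ) :
    ENNReal.ofReal (μ * σ * ξ * (g * g / 2)) ≤ Zp b c m N (g + 1) := by
  have key : ∀ g : ℕ, ENNReal.ofReal (μ * σ * ξ * g) + Zp b c m N g ≤ Zp b c m N (g + 1) := by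
    intro g
    refine le_trans (add_le_add ?_ (le_mul_of_one_le_left' (ENNReal.one_le_ofReal.2 hl)))
      (Z_step hb h0 hm hc g)
    rw [mul_assoc, mul_assoc, ENNReal.ofReal_mul hμ0, ENNReal.ofReal_mul hσ0]
    gcongr
    exact x_low hb h0 hm hξ0 hξ hl g
  induction g with
  | zero => simp
  | succ g ih =>
    refine le_trans ?_ ((add_le_add le_rfl ih).trans (key (g + 1)))
    rw [← ENNReal.ofReal_add (by positivity) (by positivity), ← mul_add]
    refine ENNReal.ofReal_le_ofReal (mul_le_mul_of_nonneg_left ?_ (by positivity))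
    push_cast
    nlinarith

lemma kolm {X : Type*} [MeasurableSpace X] (ν : Measure X) (R : Set X) {h : X → ℝ}
    (h0 : ∀ x, 0 ≤ h x) (hm : AEMeasurable h ν) {p l : ℝ} (hp : 1 < p) (hl : 0 < l) {A : ℝ≥0∞}
    (hA : ∀ t : ℝ, 0 < t → ν {x | t < h x} ≤ A * ENNReal.ofReal (t ^ (-p))) :
    ∫⁻ x in R, ENNReal.ofReal (h x) ∂ν ≤
      ENNReal.ofReal l * ν R + A * ENNReal.ofReal (l ^ (1 - p) / (p - 1)) := by
  rw [lintegral_eq_lintegral_meas_lt _ (Filter.Eventually.of_forall h0) hm.restrict,
    ← Ioc_union_Ioi_eq_Ioi hl.le]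
  refine (lintegral_union_le _ _ _).trans (add_le_add ?_ ?_)
  · calc _ ≤ ∫⁻ _ in Ioc (0 : ℝ) l, ν R := lintegral_mono fun t => by
          refine (measure_mono (subset_univ _)).trans (le_of_eq ?_)
          rw [Measure.restrict_apply_univ]
      _ = _ := by rw [setLIntegral_const, Real.volume_Ioc, sub_zero, mul_comm]
  · calc _ ≤ ∫⁻ t in Ioi l, A * ENNReal.ofReal (t ^ (-p)) :=
          setLIntegral_mono' measurableSet_Ioi fun t ht =>
            (Measure.restrict_le_self _).trans (hA t (hl.trans ht))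
      _ = _ := by
          rw [lintegral_const_mul _ (by fun_prop), ← ofReal_integral_eq_lintegral_ofReal
            (integrableOn_Ioi_rpow_of_lt (by linarith) hl)
            ((ae_restrict_mem measurableSet_Ioi).mono fun t ht =>
              Real.rpow_nonneg (hl.trans ht).le _), integral_Ioi_rpow_of_lt (by linarith) hl]
          congr 2
          rw [show -p + 1 = -(p - 1) by ring, neg_div_neg_eq, neg_sub]

end Pool.Agent.H572Z.Ex
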