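import Mathlib
import Pool.Agent.H572Z.Ex.Low

set_option autoImplicit false

/-!
# The concrete weights
-/

namespace Pool.Agent.H572Z.Ex

open MeasureTheory Set Metric
open scoped ENNReal NNReal

lemma rpow_cmp {L y z t r : ℝ} (hL : 1 ≤ L) (hy : 0 < y) (hz : 0 < z) (h1 : y ≤ L * z)
    (h2 : z ≤ L * y) (ht : |t| ≤ r) : y ^ t ≤ L ^ r * z ^ t := by
  have hL0 : 0 < L := by linarith
  rcases le_total 0 t with h | h
  · calc y ^ t ≤ (L * z) ^ t := Real.rpow_le_rpow hy.le h1 h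
      _ = L ^ t * z ^ t := Real.mul_rpow hL0.le hz.le
      _ ≤ _ := by gcongr; exact (le_abs_self t).trans ht
  · calc y ^ t ≤ (z / L) ^ t :=
          Real.rpow_le_rpow_of_nonpos (by positivity) (by rwa [div_le_iff₀' hL0]) h
      _ = L ^ (-t) * z ^ t := by
          rw [Real.div_rpow hz.le hL0.le, Real.rpow_neg hL0.le, div_eq_inv_mul]
      _ ≤ _ := by gcongr; exact (neg_le_abs t).trans ht

lemma rpow_le_self' {x a : ℝ} (hx : 1 ≤ x) (ha : a ≤ 1) : x ^ a ≤ x := by
  simpa using Real.rpow_le_rpow_of_exponent_le hx ha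

/-- The admissible quadruples of constants. -/
def Adm (p C K : ℝ) : Set (Fin 4 → ℝ) :=
  {D | 0 ≤ D 0 ∧ 0 ≤ D 1 ∧ D 0 ≤ C * K ∧ D 1 ≤ C * K ∧ D 0 * D 1 ^ (1 - 1 / p) ≤ C * K ∧
    D 1 * D 0 ^ (1 / p) ≤ C * K ∧ D 2 ≤ C ∧ D 3 ≤ C}

/-- The four exponents. -/
noncomputable def ex4 (p : ℝ) : Fin 4 → ℝ := ![1, -(1 / (p - 1)), 1 / (2 * p), -(1 / (2 * p))]

lemma adm_easy {p C K A S U : ℝ} (hp : 1 < p) (hA : 1 ≤ A) (hS : 1 ≤ S) (h : A * S ≤ C * K)
    (hU : U ≤ C) : ![A, S, U, U] ∈ Adm p C K := by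
  have h1 : 0 < 1 / p := by positivity
  have h2 : 1 / p ≤ 1 := by rw [div_le_one (by linarith)]; exact hp.le
  have a1 := rpow_le_self' hS (show 1 - 1 / p ≤ 1 by linarith)
  have a2 := rpow_le_self' hA h2
  refine ⟨?_, ?_, ?_, ?_, ?_, ?_, hU, hU⟩ <;> simp only [Matrix.cons_val] <;> nlinarith

structure Par (p : ℝ) (m n G : ℕ) (B : ℝ) : Prop where
  hp : 1 < p
  hm : 1 ≤ m
  hB : B * ∑ i ∈ Finset.range m, rad i = 16
  hn1 : 1 ≤ n * (B ^ (-(1 / (p - 1))) * (4 ^ (-(1 / (p - 1)))) ^ m * rad m)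
  hn2 : n * (B ^ (-(1 / (p - 1))) * (4 ^ (-(1 / (p - 1)))) ^ m * rad m) ≤ 2
  hG1 : 1 ≤ G * rad m
  hG2 : (n : ℝ) ≤ G
  hG3 : (16 * 4 ^ m : ℝ) ^ (1 + 1 / (p - 1)) ≤ (G : ℝ) ^ (1 - 1 / p)

noncomputable def bb (p B : ℝ) (m : ℕ) : ℕ → ℝ := bw B 4 (4 ^ (1 - p)) m
noncomputable def cc (p B : ℝ) (m : ℕ) : ℕ → ℝ :=
  bw (B ^ (-(1 / (p - 1)))) (4 ^ (-(1 / (p - 1)))) 4 m

variable {p B : ℝ} {m n G : ℕ}

lemma sum_rad_bd (hm : 1 ≤ m) :
    1 ≤ ∑ i ∈ Finset.range m, rad i ∧ ∑ i ∈ Finset.range m, rad i ≤ 2 := by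
  constructor
  · have := Finset.single_le_sum (f := rad) (fun i _ => (rad_pos i).le)
      (Finset.mem_range.2 (show 0 < m by omega))
    rwa [rad_zero] at this
  · have := sum_half (a := rad) (fun i => (rad_pos i).le) (j := 0) (n := m) fun i _ _ => by
      rw [rad_succ]; linarith [rad_pos i]
    rwa [rad_zero, mul_one, ← Finset.range_eq_Ico] at this

namespace Par

variable (H : Par p m n G B)
include H

lemma B8 : 8 ≤ B ∧ B ≤ 16 := by
  have h1 := sum_rad_bd H.hm
  have h2 := H.hB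
  have h3 : 0 < B := by
    by_contra h
    nlinarith [h1.1, not_lt.1 h]
  constructor <;> nlinarith [h1.1, h1.2]

lemma B0 : 0 < B := by linarith [H.B8.1]
lemma s0 : 0 < 1 / (p - 1) := by have := H.hp; exact one_div_pos.2 (by linarith)
lemma b_pos : ∀ k, 0 < bb p B m k := bw_pos H.B0 (by norm_num) (by positivity)
lemma c_pos : ∀ k, 0 < cc p B m k :=
  bw_pos (Real.rpow_pos_of_pos H.B0 _) (by positivity) (by norm_num)
lemma th_le : (4 : ℝ) ^ (1 - p) ≤ 1 :=
  Real.rpow_le_one_of_one_le_of_nonpos (by norm_num) (by linarith [H.hp])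

lemma th_s : ((4 : ℝ) ^ (1 - p)) ^ (-(1 / (p - 1))) = 4 := by
  have : p - 1 ≠ 0 := by linarith [H.hp]
  rw [← Real.rpow_mul (by norm_num), show (1 - p) * -(1 / (p - 1)) = 1 by field_simp; ring,
    Real.rpow_one]

lemma b_c (k : ℕ) : bb p B m k ^ (-(1 / (p - 1))) = cc p B m k := by
  rw [bb, bw_rpow H.B0 (by norm_num) (by positivity), H.th_s, cc]

lemma V_c (N g : ℕ) :
    (fun x => V (bb p B m) m N g x ^ (-(1 / (p - 1)))) = V (cc p B m) m N g := by
  rw [bb, V_bw_rpow H.B0 (by norm_num) (by positivity), H.th_s, cc]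

lemma n_pos : 1 ≤ n := by
  by_contra h
  have h1 := H.hn1
  rw [show n = 0 by omega] at h1
  norm_num at h1

lemma G1 : (1 : ℝ) ≤ G := by
  have := H.hG1
  have := rad_le_one m
  have := rad_pos m
  have : (0 : ℝ) ≤ G := by positivity
  nlinarith

lemma m1 : (1 : ℝ) ≤ m := by exact_mod_cast H.hm

lemma b_rad {i : ℕ} (hi : i ≤ m) : bb p B m (i + 1) * rad i = B := by
  rw [bb, bw_up hi, mul_assoc, four_mul_rad, mul_one]

lemma b_sml {i : ℕ} (hi : i ≤ m) : bb p B m (i + 1) * sml i = B / 16 * rad i := by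
  rw [sml_eq, show bb p B m (i + 1) * (rad i * rad i / 16) =
    bb p B m (i + 1) * rad i / 16 * rad i by ring, H.b_rad hi]

lemma sum_b_sml : ∑ i ∈ Finset.range m, bb p B m (i + 1) * sml i = 1 := by
  rw [Finset.sum_congr rfl fun i hi => H.b_sml (Finset.mem_range.1 hi).le, ← Finset.mul_sum]
  linarith [H.hB]

lemma sum_b_rad : ∑ i ∈ Finset.range m, bb p B m (i + 1) * rad i = B * m := by
  rw [Finset.sum_congr rfl fun i hi => H.b_rad (Finset.mem_range.1 hi).le]
  simp [mul_comm]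

lemma b_tail {j : ℕ} (hj : m ≤ j) (N : ℕ) :
    ∑ i ∈ Finset.Ico j N, bb p B m (i + 1) * rad i ≤ 2 * (bb p B m (j + 1) * rad j) := by
  refine sum_rad_le H.b_pos fun i hi _ => ?_
  have h1 := H.b_pos (i + 1)
  have h2 := H.th_le
  rw [bb] at h1 ⊢
  rw [bw_down (hj.trans hi)]
  nlinarith

lemma sum_b_all : 2 * ∑ i ∈ Finset.Ico 0 (m + n), bb p B m (i + 1) * rad i ≤ 96 * m := by
  rw [← Finset.sum_Ico_consecutive _ (Nat.zero_le m) (Nat.le_add_right m n),
    ← Finset.range_eq_Ico, H.sum_b_rad]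
  have h1 := H.b_tail le_rfl (m + n)
  rw [H.b_rad le_rfl] at h1
  nlinarith [H.B8.2, H.m1]

lemma x_b {g : ℕ} (hg : g ≤ G + 1) :
    mo (V (bb p B m) m (m + n) g) (Ps 0) ≤ ENNReal.ofReal (200 * (m * G)) := by
  refine (x_lin H.b_pos rfl (Nat.le_add_right m n) (by have := H.hm; omega) (by positivity)
    H.sum_b_all (by rw [← Finset.range_eq_Ico, H.sum_b_sml]) g).trans
    (ENNReal.ofReal_le_ofReal ?_)
  have h1 : (g : ℝ) ≤ G + 1 := by exact_mod_cast hg
  have h2 := H.m1
  have h3 := H.G1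
  have h4 : (m : ℝ) * g ≤ m * (2 * G) := by gcongr; linarith
  nlinarith

lemma c_tail {i : ℕ} (hi : m ≤ i) : cc p B m (i + 1) * rad i =
    B ^ (-(1 / (p - 1))) * (4 ^ (-(1 / (p - 1)))) ^ m * rad m := by
  induction i, hi using Nat.le_induction with
  | base => rw [cc, bw_up le_rfl]
  | succ i hi ih => rw [← ih, cc, bw_down hi, rad_succ]; ring

lemma c_sum {j : ℕ} (hj : m ≤ j) : ∑ i ∈ Finset.Ico j (m + n), cc p B m (i + 1) * rad i =
    ((m + n - j : ℕ) : ℝ) * (B ^ (-(1 / (p - 1))) * (4 ^ (-(1 / (p - 1)))) ^ m * rad m) := by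
  rw [Finset.sum_congr rfl fun i hi => H.c_tail (hj.trans (Finset.mem_Ico.1 hi).1)]
  simp

lemma x_c (g : ℕ) : mo (V (cc p B m) m (m + n) g) (Ps 0) ≤ ENNReal.ofReal 16 := by
  have h1 : cc p B m 1 ≤ 1 :=
    Real.rpow_le_one_of_one_le_of_nonpos (by linarith [H.B8.1]) (by linarith [H.s0])
  have h2 : (4 : ℝ) ^ (-(1 / (p - 1))) ≤ 1 :=
    Real.rpow_le_one_of_one_le_of_nonpos (by norm_num) (by linarith [H.s0])
  have h3 : ∀ i, 0 ≤ i → i + 1 ≤ m → cc p B m (i + 2) ≤ 2 * cc p B m (i + 1) := by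
    intro i _ hi
    have := H.c_pos (i + 1)
    rw [cc] at this ⊢
    rw [bw, if_pos (by omega)]
    nlinarith
  have a1 := sum_rad_le H.c_pos h3
  have a2 := sum_sml_le H.c_pos h3
  have a3 := H.c_sum le_rfl
  rw [rad_zero, zero_add] at a1 a2
  rw [Nat.add_sub_cancel_left] at a3
  have := x_le H.c_pos rfl (Nat.le_add_right m n) (by have := H.hm; omega) (A := 8) (by norm_num)
    (by
      rw [← Finset.sum_Ico_consecutive _ (Nat.zero_le m) (Nat.le_add_right m n)]
      linarith [H.hn2]) (by linarith) g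
  rwa [show (2 : ℝ) * 8 = 16 by norm_num] at this

lemma dbl {t : ℝ} (ht : |t| ≤ 1 / (2 * p)) :
    bw (B ^ t) (4 ^ t) ((4 ^ (1 - p)) ^ t) m 1 ≤ 4 ∧ ∀ i,
      bw (B ^ t) (4 ^ t) ((4 ^ (1 - p)) ^ t) m (i + 2) ≤
        2 * bw (B ^ t) (4 ^ t) ((4 ^ (1 - p)) ^ t) m (i + 1) := by
  have hp := H.hp
  have e : ∀ u : ℝ, u ≤ 1 / 2 → (4 : ℝ) ^ u ≤ 2 := fun u hu => by
    calc (4 : ℝ) ^ u ≤ 4 ^ (1 / 2 : ℝ) := Real.rpow_le_rpow_of_exponent_le (by norm_num) hu
      _ = 2 := by
        rw [show (4 : ℝ) = 2 ^ (2 : ℝ) by norm_num, ← Real.rpow_mul (by norm_num)]; norm_num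
  have h1 : |t| * (2 * p) ≤ 1 := by rwa [le_div_iff₀ (by linarith)] at ht
  have h2 := le_abs_self t
  have h3 := neg_le_abs t
  have h4 := abs_nonneg t
  have h5 : |t| ≤ 1 / 2 := by nlinarith
  refine ⟨?_, bw_le (Real.rpow_pos_of_pos H.B0 _) (by positivity) (by positivity)
    (e t (by linarith)) ?_⟩
  · calc B ^ t ≤ B ^ (1 / 2 : ℝ) :=
          Real.rpow_le_rpow_of_exponent_le (by linarith [H.B8.1]) (by linarith)
      _ ≤ 16 ^ (1 / 2 : ℝ) := Real.rpow_le_rpow H.B0.le H.B8.2 (by norm_num)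
      _ = 4 := by
        rw [show (16 : ℝ) = 4 ^ (2 : ℝ) by norm_num, ← Real.rpow_mul (by norm_num)]; norm_num
  · rw [← Real.rpow_mul (by norm_num)]
    exact e _ (by nlinarith)

lemma small_P {t : ℝ} (ht : |t| ≤ 1 / (2 * p)) (g : ℕ) {j : ℕ} (hj : j < m + n) :
    mo (fun x => V (bb p B m) m (m + n) (g + 1) x ^ t) (Ps j) ≤
      ENNReal.ofReal (512 * bb p B m (j + 1) ^ t * (rad j / 64)) := by
  rw [bb, V_bw_rpow H.B0 (by norm_num) (by positivity), bw_rpow H.B0 (by norm_num) (by positivity)]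
  refine (dbl_P (bw_pos (Real.rpow_pos_of_pos H.B0 _) (by positivity) (by positivity)) rfl
    (Nat.le_add_right m n) (H.dbl ht).1 (H.dbl ht).2 g hj).trans (le_of_eq ?_)
  congr 1; ring

lemma small_x {t : ℝ} (ht : |t| ≤ 1 / (2 * p)) (g : ℕ) :
    mo (fun x => V (bb p B m) m (m + n) g x ^ t) (Ps 0) ≤ ENNReal.ofReal ((513 - 1) / 16) := by
  rw [bb, V_bw_rpow H.B0 (by norm_num) (by positivity)]
  refine (dbl_x (bw_pos (Real.rpow_pos_of_pos H.B0 _) (by positivity) (by positivity)) rfl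
    (Nat.le_add_right m n) (by have := H.hm; omega) (H.dbl ht).1 (H.dbl ht).2 g).trans
    (le_of_eq ?_)
  congr 1; norm_num

theorem good : ∀ a l : ℝ, 0 < l →
    Gd (Adm p (10 ^ 8 + ((16 * 4 ^ (p - 1)) ^ (1 + 1 / (p - 1))) ^ 2) (m * G)) (ex4 p)
      (V (bb p B m) m (m + n) (G + 1)) a l := by
  have hp := H.hp
  have hs := H.s0
  have hm1 := H.m1
  have hG1 := H.G1
  have hK : (1 : ℝ) ≤ m * G := by nlinarith
  have hGK : (G : ℝ) ≤ m * G := by nlinarith
  have h4 : (1 : ℝ) ≤ 4 ^ (p - 1) := Real.one_le_rpow (by norm_num) (by linarith)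
  set L : ℝ := 16 * 4 ^ (p - 1) with hL
  have hL1 : 16 ≤ L := by linarith
  have hLq : 1 ≤ L ^ (1 + 1 / (p - 1)) := Real.one_le_rpow (by linarith) (by linarith)
  set C : ℝ := 10 ^ 8 + (L ^ (1 + 1 / (p - 1))) ^ 2 with hC
  have hC1 : 10 ^ 8 ≤ C := le_add_of_nonneg_right (by positivity)
  have hε0 : 0 < 1 / (2 * p) := by positivity
  have hε : |1 / (2 * p)| ≤ 1 / (2 * p) := (abs_of_pos hε0).le
  have hε' : |-(1 / (2 * p))| ≤ 1 / (2 * p) := by rwa [abs_neg]
  have hε1 : 1 / (2 * p) ≤ 1 := by rw [div_le_one (by linarith)]; linarith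
  have hp1 : 0 < 1 / p := by positivity
  have hp2 : 1 / p ≤ 1 := by rw [div_le_one (by linarith)]; exact hp.le
  refine all_good H.b_pos rfl (Nat.le_add_right m n) (by have := H.hm; omega) (L := L)
    (G := G + 1) (by linarith) ?_ ?_ ?_ ?_ (G + 1) le_rfl
  · have hth : L * 4 ^ (1 - p) = 16 := by
      rw [hL, mul_assoc, ← Real.rpow_add (by norm_num)]; norm_num
    rintro (_ | k)
    · have := H.B8
      simp only [bb, bw]
      constructor <;> nlinarith [this.1, this.2]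
    · have h1 := H.b_pos (k + 1)
      have h2 := H.th_le
      rw [bb] at h1 ⊢
      refine ⟨bw_le H.B0 (by norm_num) (by positivity) (by linarith) (by linarith) k, ?_⟩
      rw [bw, ← mul_assoc]
      split_ifs
      · nlinarith
      · rw [hth]; linarith
  · refine ⟨_, adm_easy (U := L ^ (1 + 1 / (p - 1))) hp hLq hLq (by nlinarith) (by nlinarith),
      fun t y z hy hz h1 h2 => ?_⟩
    fin_cases t <;> refine rpow_cmp (by linarith) hy hz h1 h2 ?_ <;>
      simp only [ex4, Fin.zero_eta, Fin.mk_one, Fin.reduceFinMk, Matrix.cons_val, abs_neg,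
        abs_one, abs_of_pos hs, abs_of_pos hε0] <;> linarith
  · intro j hj
    have hb := H.b_pos (j + 1)
    have hc := H.c_pos (j + 1)
    have hr := rad_pos j
    rcases le_total j m with hjm | hjm
    · have hb1 : bb p B m (j + 1) = B * 4 ^ j := bw_up hjm
      have h4j : (1 : ℝ) ≤ 4 ^ j := one_le_pow₀ (by norm_num)
      have hb2 : 4 ^ j ≤ bb p B m (j + 1) := by rw [hb1]; nlinarith [H.B8.1]
      have hb3 : bb p B m (j + 1) ≤ 16 * 4 ^ m := by
        rw [hb1]; gcongr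
        · exact H.B8.2
        · norm_num
      set β := bb p B m (j + 1) with hβ
      have hS : 1024 / (cc p B m (j + 1) * rad j) ≤ 1024 * β ^ (1 + 1 / (p - 1)) := by
        rw [div_le_iff₀ (by positivity), ← H.b_c, ← hβ, mul_assoc, ← mul_assoc (β ^ _),
          ← Real.rpow_add hb, add_neg_cancel_right, Real.rpow_one]
        nlinarith [four_mul_rad j]
      have hW : β ^ (1 + 1 / (p - 1)) ≤ ((m : ℝ) * G) ^ (1 - 1 / p) :=
        ((Real.rpow_le_rpow hb.le hb3 (by linarith)).trans H.hG3).trans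
          (Real.rpow_le_rpow (by linarith) hGK (by linarith))
      have hW' := rpow_le_self' hK (show 1 - 1 / p ≤ 1 by linarith)
      have hA : 32000 * ((m : ℝ) * G) / β ≤ 32000 * (m * G) :=
        div_le_self (by positivity) (by linarith)
      refine ⟨![32000 * (m * G) / β, 1024 / (cc p B m (j + 1) * rad j), 512, 512],
        ⟨?_, ?_, ?_, ?_, ?_, ?_, ?_, ?_⟩, fun g hg t => ?_⟩
      any_goals simp only [Matrix.cons_val]
      · positivity
      · positivity
      · nlinarith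
      · nlinarith
      · have h1 : (1024 / (cc p B m (j + 1) * rad j)) ^ (1 - 1 / p) ≤ 1024 * β := by
          refine (Real.rpow_le_rpow (by positivity) hS (by linarith)).trans ?_
          have : p - 1 ≠ 0 := by linarith
          rw [Real.mul_rpow (by norm_num) (by positivity), ← Real.rpow_mul hb.le,
            show (1 + 1 / (p - 1)) * (1 - 1 / p) = 1 by field_simp; ring, Real.rpow_one]
          gcongr
          exact rpow_le_self' (by norm_num) (by linarith)
        calc _ ≤ 32000 * ((m : ℝ) * G) / β * (1024 * β) := by gcongr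
          _ = 32000 * 1024 * (m * G) := by field_simp
          _ ≤ _ := by nlinarith
      · have h1 : (32000 * ((m : ℝ) * G) / β) ^ (1 / p) ≤ 32000 * ((m : ℝ) * G) ^ (1 / p) := by
          refine (Real.rpow_le_rpow (by positivity) hA hp1.le).trans ?_
          rw [Real.mul_rpow (by norm_num) (by positivity)]
          gcongr
          exact rpow_le_self' (by norm_num) hp2
        calc _ ≤ 1024 * ((m : ℝ) * G) ^ (1 - 1 / p) * (32000 * ((m : ℝ) * G) ^ (1 / p)) := by
              gcongr; linarith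
          _ = 1024 * 32000 * (((m : ℝ) * G) ^ (1 - 1 / p) * ((m : ℝ) * G) ^ (1 / p)) := by ring
          _ = 1024 * 32000 * (m * G) := by
              rw [← Real.rpow_add (by linarith), sub_add_cancel, Real.rpow_one]
          _ ≤ _ := by nlinarith
      · linarith
      · linarith
      · fin_cases t <;> simp only [ex4, Fin.zero_eta, Fin.mk_one, Fin.reduceFinMk, Matrix.cons_val]
        · refine ⟨by positivity, ?_⟩
          simp only [Real.rpow_one]
          refine (mo_up H.b_pos rfl (Nat.le_add_right m n) g hj (by positivity)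
            (H.x_b (by omega))).trans (ENNReal.ofReal_le_ofReal ?_)
          have a1 : ∑ i ∈ Finset.Ico j (m + n), bb p B m (i + 1) * rad i ≤
              ∑ i ∈ Finset.Ico 0 (m + n), bb p B m (i + 1) * rad i :=
            Finset.sum_le_sum_of_subset_of_nonneg (Finset.Ico_subset_Ico_left (Nat.zero_le j))
              fun i _ _ => (mul_pos (H.b_pos _) (rad_pos i)).le
          have a2 : ∑ i ∈ Finset.Ico j m, bb p B m (i + 1) * sml i ≤ 2 * rad j := by
            refine le_trans (Finset.sum_le_sum fun i hi => ?_) (sum_half (a := rad)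
              (fun i => (rad_pos i).le) (j := j) (n := m) fun i _ _ => by
                rw [rad_succ]; linarith [rad_pos i])
            rw [H.b_sml (Finset.mem_Ico.1 hi).2.le]
            nlinarith [H.B8.2, rad_pos i]
          have a3 : (1 : ℝ) ≤ G * rad j := H.hG1.trans (by gcongr; exact rad_anti hjm)
          have a4 := H.sum_b_all
          have a5 : (m : ℝ) ≤ m * (G * rad j) := le_mul_of_one_le_right (by linarith) a3
          rw [div_mul_cancel₀ _ hb.ne']
          nlinarith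
        · refine ⟨by positivity, ?_⟩
          rw [H.V_c, hβ, H.b_c]
          refine ((mo_mono _ (ball_subset_ball (rad_anti (Nat.zero_le j)))).trans
            (H.x_c _)).trans (le_of_eq ?_)
          congr 1; field_simp; norm_num
        · exact ⟨by norm_num, H.small_P hε g hj⟩
        · exact ⟨by norm_num, H.small_P hε' g hj⟩
    · have hn1 : (1 : ℝ) ≤ n := by exact_mod_cast H.n_pos
      refine ⟨_, adm_easy (A := 256) (S := 128 * n) (U := 512) hp (by norm_num) (by linarith)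
        (by nlinarith [H.hG2]) (by linarith), fun g hg t => ?_⟩
      fin_cases t <;> simp only [ex4, Fin.zero_eta, Fin.mk_one, Fin.reduceFinMk, Matrix.cons_val]
      · refine ⟨by norm_num, ?_⟩
        simp only [Real.rpow_one]
        refine (mo_up H.b_pos rfl (Nat.le_add_right m n) g hj (by positivity)
          (H.x_b (by omega))).trans (ENNReal.ofReal_le_ofReal ?_)
        rw [Finset.Ico_eq_empty (a := j) (b := m) (by omega), Finset.sum_empty]
        linarith [H.b_tail hjm (m + n)]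
      · refine ⟨by positivity, ?_⟩
        rw [H.V_c, H.b_c]
        refine (mo_up H.c_pos rfl (Nat.le_add_right m n) g hj (by norm_num)
          (H.x_c g)).trans (ENNReal.ofReal_le_ofReal ?_)
        rw [Finset.Ico_eq_empty (a := j) (b := m) (by omega), Finset.sum_empty, H.c_sum hjm,
          ← H.c_tail hjm]
        have a1 : ((m + n - j : ℕ) : ℝ) ≤ n := by exact_mod_cast (by omega)
        nlinarith [mul_pos hc hr]
      · exact ⟨by norm_num, H.small_P hε g hj⟩
      · exact ⟨by norm_num, H.small_P hε' g hj⟩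
  · refine ⟨_, adm_easy (A := 3201 * (m * G)) (S := 257) (U := 513) hp (by linarith) (by norm_num)
      (by nlinarith) (by linarith), fun g hg t => ?_⟩
    fin_cases t <;> simp only [ex4, Fin.zero_eta, Fin.mk_one, Fin.reduceFinMk, Matrix.cons_val]
    · refine ⟨by linarith, ?_⟩
      simp only [Real.rpow_one]
      exact (H.x_b (by omega)).trans (ENNReal.ofReal_le_ofReal (by linarith))
    · refine ⟨by norm_num, ?_⟩
      rw [H.V_c]
      exact (H.x_c _).trans (ENNReal.ofReal_le_ofReal (by norm_num))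
    · exact ⟨by norm_num, H.small_x hε _⟩
    · exact ⟨by norm_num, H.small_x hε' _⟩

lemma Y_bd : ∫⁻ x, ENNReal.ofReal (fn (cc p B m) m (m + n) (G + 1) x ^ p *
    V (bb p B m) m (m + n) (G + 1) x) ≤ ENNReal.ofReal (32 * G) := by
  have hp := H.hp
  refine (Y_le H.b_pos rfl (Nat.le_add_right m n) (X := 16) (by linarith) (by norm_num)
    (fun k => ?_) ?_ H.sum_b_sml.le (G + 1)).trans (ENNReal.ofReal_le_ofReal ?_)
  · have : p - 1 ≠ 0 := by linarith
    rw [← H.b_c, ← Real.rpow_mul (H.b_pos k).le, ← Real.rpow_add_one (H.b_pos k).ne']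
    congr 1; field_simp; ring
  · have := H.x_c 1
    simpa [mo, V] using this
  · push_cast
    linarith [H.G1]

lemma Z_bd : ENNReal.ofReal (9 / 8 * (m * G) ^ 2) ≤
    Zp (bb p B m) (cc p B m) m (m + n) (G + 1) := by
  have hm1 := H.m1
  refine le_trans (le_of_eq ?_) (Z_low H.b_pos rfl (Nat.le_add_right m n) H.c_pos (ξ := 6 * m)
    (μ := m / 2) (σ := 3 / 4) (by positivity) (by positivity) (by norm_num) ?_ H.sum_b_sml.ge
    ?_ ?_ G)
  · congr 1; ring
  · rw [H.sum_b_rad]; nlinarith [H.B8.1]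
  · rw [Finset.sum_congr rfl (g := fun _ => B / 16) fun i hi => by
      rw [H.b_sml (Finset.mem_range.1 hi).le, mul_assoc, mul_comm (rad i), four_mul_rad, mul_one]]
    simp only [Finset.sum_const, Finset.card_range, nsmul_eq_mul]
    nlinarith [H.B8.1]
  · refine le_trans (ENNReal.ofReal_le_ofReal ?_) (bulk_low H.c_pos (j := m) le_rfl)
    rw [H.c_sum le_rfl, Nat.add_sub_cancel_left]
    linarith [H.hn1]

end Par

lemma exists_par (hp : 1 < p) (hm : 1 ≤ m) : ∃ (n G : ℕ) (B : ℝ), Par p m n G B := by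
  have h1 := sum_rad_bd hm
  set B : ℝ := 16 / ∑ i ∈ Finset.range m, rad i with hB
  have hB1 : 1 ≤ B := by rw [hB, le_div_iff₀ (by linarith [h1.1])]; linarith [h1.2]
  have hs : 0 < 1 / (p - 1) := one_div_pos.2 (by linarith)
  set τ : ℝ := B ^ (-(1 / (p - 1))) * (4 ^ (-(1 / (p - 1)))) ^ m * rad m with hτ
  have hτ0 : 0 < τ := by have := rad_pos m; positivity
  have hτ1 : τ ≤ 1 := by
    refine mul_le_one₀ (mul_le_one₀ (Real.rpow_le_one_of_one_le_of_nonpos hB1 (by linarith))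
      (by positivity) (pow_le_one₀ (by positivity) ?_)) (rad_pos m).le (rad_le_one m)
    exact Real.rpow_le_one_of_one_le_of_nonpos (by norm_num) (by linarith)
  have hq : 0 < 1 - 1 / p := by rw [sub_pos, div_lt_one (by linarith)]; exact hp
  have ht : Filter.Tendsto (fun G : ℕ => (G : ℝ) ^ (1 - 1 / p)) Filter.atTop Filter.atTop :=
    (tendsto_rpow_atTop hq).comp tendsto_natCast_atTop_atTop
  obtain ⟨G, hG1, hG2, hG3⟩ := (((tendsto_natCast_atTop_atTop (R := ℝ)).eventually_ge_atTop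
    (4 ^ m)).and (((tendsto_natCast_atTop_atTop (R := ℝ)).eventually_ge_atTop
    (⌈1 / τ⌉₊ : ℝ)).and (ht.eventually_ge_atTop ((16 * 4 ^ m : ℝ) ^ (1 + 1 / (p - 1)))))).exists
  refine ⟨⌈1 / τ⌉₊, G, B, hp, hm, by rw [hB, div_mul_cancel₀ _ (by linarith [h1.1])], ?_, ?_, ?_,
    hG2, hG3⟩
  · rw [← hτ, ← div_le_iff₀ hτ0]; exact Nat.le_ceil _
  · have := (Nat.ceil_lt_add_one (show 0 ≤ 1 / τ by positivity)).le
    calc _ ≤ (1 / τ + 1) * τ := by rw [← hτ]; gcongr
      _ = 1 + τ := by field_simp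
      _ ≤ 2 := by linarith
  · rw [← four_mul_rad m]
    gcongr
    exact (rad_pos m).le

end Pool.Agent.H572Z.Ex
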