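import Mathlib
import Pool.Agent.H572Z.Ex.Inst
import Pool.Agent.H572Z.Ex.Defs

set_option autoImplicit false

/-!
# Failure of the mixed bounds at the endpoint
-/

namespace Pool.Agent.H572Z.Ex

open MeasureTheory Set Metric Pool.Agent.H572Z.Sp
open scoped ENNReal NNReal

lemma log_avg_le {X : Type*} [MeasureSpace X] {Q : Set X} (hQ0 : volume Q ≠ 0)
    (hQt : volume Q ≠ ⊤) {u : X → ℝ} (hu : Measurable u) (hpos : ∀ x, 0 < u x) {ε C γ Z : ℝ}
    (hε : 0 < ε) (hC : 0 ≤ C) (hγ : 0 < γ)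
    (h1 : avg (fun x => u x ^ ε) Q ≤ ENNReal.ofReal (C * γ ^ ε))
    (h2 : avg (fun x => (u x)⁻¹ ^ ε) Q ≤ ENNReal.ofReal Z) :
    ⨍ x in Q, Real.log (u x) ≤ Real.log γ + C / ε := by
  have hint : ∀ v : X → ℝ, Measurable v → (∀ x, 0 ≤ v x) → ∀ Z : ℝ, avg v Q ≤ ENNReal.ofReal Z →
      IntegrableOn v Q := by
    intro v hv h0 Z h
    refine ⟨hv.aestronglyMeasurable, (hasFiniteIntegral_iff_ofReal
      (Filter.Eventually.of_forall h0)).2 ?_⟩
    rw [avg, ENNReal.div_le_iff hQ0 hQt] at h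
    exact h.trans_lt (ENNReal.mul_lt_top ENNReal.ofReal_lt_top hQt.lt_top)
  have n1 : ∀ x, 0 ≤ u x ^ ε := fun x => Real.rpow_nonneg (hpos x).le _
  have n2 : ∀ x, 0 ≤ (u x)⁻¹ ^ ε := fun x => Real.rpow_nonneg (inv_pos.2 (hpos x)).le _
  have i1 := hint _ (hu.pow_const ε) n1 _ h1
  have i2 := hint (fun x => (u x)⁻¹ ^ ε) (hu.inv.pow_const ε) n2 _ h2
  have i3 : IntegrableOn (fun x => Real.log (u x)) Q := by
    refine ((i1.add i2).div_const ε).mono' hu.log.aestronglyMeasurable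
      (Filter.Eventually.of_forall fun x => ?_)
    have a1 := Real.log_le_rpow_div (hpos x).le hε
    have a2 := Real.log_le_rpow_div (inv_pos.2 (hpos x)).le hε
    rw [Real.log_inv] at a2
    have a3 := div_nonneg (n1 x) hε.le
    have a4 := div_nonneg (n2 x) hε.le
    rw [Real.norm_eq_abs, Pi.add_apply, add_div, abs_le]
    constructor <;> linarith
  have hv : 0 < volume.real Q := ENNReal.toReal_pos hQ0 hQt
  have hγε : 0 < γ ^ ε := Real.rpow_pos_of_pos hγ _
  have h3 : ∫ x in Q, u x ^ ε ≤ C * γ ^ ε * volume.real Q := by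
    rw [integral_eq_lintegral_of_nonneg_ae (Filter.Eventually.of_forall n1) i1.1]
    rw [avg, ENNReal.div_le_iff hQ0 hQt] at h1
    refine (ENNReal.toReal_mono (ENNReal.mul_ne_top ENNReal.ofReal_ne_top hQt) h1).trans
      (le_of_eq ?_)
    rw [ENNReal.toReal_mul, ENNReal.toReal_ofReal (by positivity)]
    rfl
  have ic : IntegrableOn (fun _ => Real.log γ) Q := integrableOn_const hQt
  have h4 : ∫ x in Q, Real.log (u x) ≤ ∫ x in Q, (Real.log γ + u x ^ ε / (γ ^ ε * ε)) := by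
    refine integral_mono i3 (ic.add (i1.div_const _)) fun x => ?_
    have a1 := Real.log_le_rpow_div (div_pos (hpos x) hγ).le hε
    rw [Real.log_div (hpos x).ne' hγ.ne', Real.div_rpow (hpos x).le hγ.le, div_div] at a1
    beta_reduce
    linarith
  rw [integral_add ic (i1.div_const _), setIntegral_const, integral_div, smul_eq_mul] at h4
  rw [setAverage_eq, smul_eq_mul, inv_mul_le_iff₀ hv]
  have h5 : (∫ x in Q, u x ^ ε) / (γ ^ ε * ε) ≤ volume.real Q * (C / ε) := by
    rw [div_le_iff₀ (by positivity)]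
    refine h3.trans (le_of_eq ?_)
    field_simp
  linarith

lemma mix_le {A₁ A₂ : ℝ≥0∞} {r X Y E : ℝ} (hr : 1 < r) (hX : 0 ≤ X) (hY : 0 ≤ Y) (hE : 1 ≤ E)
    (h1 : A₁ ≤ ENNReal.ofReal (X * Y ^ (r - 1))) (h2 : A₂ ≤ ENNReal.ofReal (X * E)) :
    A₁ ^ (1 / r) * A₂ ^ (1 - 1 / r) ≤ ENNReal.ofReal (X * Y ^ (1 - 1 / r) * E) := by
  have a1 : 0 < 1 / r := by positivity
  have a2 : 0 < 1 - 1 / r := by rw [sub_pos, div_lt_one (by linarith)]; exact hr
  have hE0 : 0 ≤ E := by linarith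
  calc _ ≤ ENNReal.ofReal (X * Y ^ (r - 1)) ^ (1 / r) * ENNReal.ofReal (X * E) ^ (1 - 1 / r) := by
        gcongr
    _ ≤ _ := by
        rw [ENNReal.ofReal_rpow_of_nonneg (by positivity) a1.le,
          ENNReal.ofReal_rpow_of_nonneg (by positivity) a2.le,
          ← ENNReal.ofReal_mul (by positivity)]
        refine ENNReal.ofReal_le_ofReal ?_
        rw [Real.mul_rpow hX (by positivity), Real.mul_rpow hX hE0, ← Real.rpow_mul hY,
          show (r - 1) * (1 / r) = 1 - 1 / r by field_simp]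
        calc _ = X ^ (1 / r) * X ^ (1 - 1 / r) * Y ^ (1 - 1 / r) * E ^ (1 - 1 / r) := by ring
          _ ≤ _ := by
            rw [← Real.rpow_add' hX (by norm_num), add_sub_cancel, Real.rpow_one]
            gcongr
            exact rpow_le_self' hE (by linarith)

lemma cube_co (a : Fin 1 → ℝ) (l : ℝ) : cube a l = co ⁻¹' Ico (a 0) (a 0 + l) := by
  ext x
  simp [cube, co_apply]

lemma avg_co (F : ℝ → ℝ) (a : Fin 1 → ℝ) {l Z : ℝ} (hl : 0 < l)
    (h : mo F (Ico (a 0) (a 0 + l)) ≤ ENNReal.ofReal (Z * l)) :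
    avg (fun x => F (co x)) (cube a l) ≤ ENNReal.ofReal Z := by
  rw [avg, cube_vol, pow_one, cube_co, co_mp.setLIntegral_comp_preimage_emb co.measurableEmbedding
    (fun t => ENNReal.ofReal (F t))]
  refine ENNReal.div_le_of_le_mul (h.trans (le_of_eq ?_))
  rw [ENNReal.ofReal_mul' hl.le]

lemma cube_bds {p C K : ℝ} (hp : 1 < p) (hC : 1 ≤ C) {W : ℝ → ℝ} (hW : Measurable W)
    (hpos : ∀ x, 0 < W x) (a : Fin 1 → ℝ) {l : ℝ} (hl : 0 < l)
    (h : Gd (Adm p C K) (ex4 p) W (a 0) l) :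
    Ap p (fun x => W (co x)) (cube a l) ≤ ENNReal.ofReal (C * K * (C * K) ^ (p - 1)) ∧
    Ap p (fun x => W (co x)) (cube a l) ^ (1 / p) *
      Aexp (fun x => W (co x)) (cube a l) ^ (1 - 1 / p) ≤
      ENNReal.ofReal (C * K * Real.exp (C * (2 * p))) ∧
    Ap (conj p) (dual p fun x => W (co x)) (cube a l) ^ (1 / conj p) *
      Aexp (dual p fun x => W (co x)) (cube a l) ^ (1 - 1 / conj p) ≤
      ENNReal.ofReal (C * K * Real.exp (1 / (p - 1) * (C * (2 * p)))) := by
  obtain ⟨γ, hγ, D, ⟨d0, d1, d2, d3, d4, d5, d6, d7⟩, H⟩ := h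
  have hp1 : p - 1 ≠ 0 := by linarith
  have hs : 0 < 1 / (p - 1) := one_div_pos.2 (by linarith)
  have hε : 0 < 1 / (2 * p) := by positivity
  have e1 : 1 - conj p = -(1 / (p - 1)) := by rw [conj]; field_simp; ring
  have e2 : conj p - 1 = 1 / (p - 1) := by linarith
  have e3 : 1 - 1 / conj p = 1 / p := by rw [conj]; field_simp; ring
  have hq : 1 < conj p := by linarith
  set w : E 1 → ℝ := fun x => W (co x) with hw
  have hwm : Measurable w := hW.comp co.measurable
  have hwp : ∀ x, 0 < w x := fun x => hpos _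
  have a0 : avg w (cube a l) ≤ ENNReal.ofReal (D 0 * γ) := by
    have := avg_co _ a hl (H 0)
    simpa [ex4] using this
  have a1 : avg (dual p w) (cube a l) ≤ ENNReal.ofReal (D 1 * γ ^ (-(1 / (p - 1)))) := by
    have := avg_co _ a hl (H 1)
    unfold dual
    rw [e1]
    exact this
  have a2 : avg (fun x => w x ^ (1 / (2 * p))) (cube a l) ≤
      ENNReal.ofReal (C * γ ^ (1 / (2 * p))) :=
    (avg_co _ a hl (H 2)).trans (ENNReal.ofReal_le_ofReal
      (mul_le_mul_of_nonneg_right d6 (Real.rpow_nonneg hγ.le _)))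
  have a3 : avg (fun x => (w x)⁻¹ ^ (1 / (2 * p))) (cube a l) ≤
      ENNReal.ofReal (C * γ⁻¹ ^ (1 / (2 * p))) := by
    simp only [Real.inv_rpow (hwp _).le, Real.inv_rpow hγ.le, ← Real.rpow_neg (hwp _).le,
      ← Real.rpow_neg hγ.le]
    exact (avg_co _ a hl (H 3)).trans (ENNReal.ofReal_le_ofReal
      (mul_le_mul_of_nonneg_right d7 (Real.rpow_nonneg hγ.le _)))
  have hQ0 : volume (cube a l) ≠ 0 := by
    rw [cube_vol]; exact pow_ne_zero _ (ENNReal.ofReal_pos.2 hl).ne'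
  have hQt : volume (cube a l) ≠ ⊤ := by
    rw [cube_vol]; exact ENNReal.pow_ne_top ENNReal.ofReal_ne_top
  have l1 := log_avg_le hQ0 hQt hwm hwp hε (by linarith) hγ a2 a3
  have l2 := log_avg_le (u := fun x => (w x)⁻¹) hQ0 hQt hwm.inv (fun x => inv_pos.2 (hwp x)) hε (by linarith)
    (inv_pos.2 hγ) a3 (by simpa only [inv_inv] using a2)
  rw [div_div_eq_mul_div, div_one] at l1 l2
  have b1 : Ap p w (cube a l) ≤ ENNReal.ofReal (D 0 * D 1 ^ (p - 1)) := by
    refine (mul_le_mul' a0 (ENNReal.rpow_le_rpow a1 (by linarith))).trans (le_of_eq ?_)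
    rw [ENNReal.ofReal_rpow_of_nonneg (by positivity) (by linarith),
      ← ENNReal.ofReal_mul (by positivity), Real.mul_rpow d1 (by positivity),
      ← Real.rpow_mul hγ.le, show -(1 / (p - 1)) * (p - 1) = -1 by field_simp, Real.rpow_neg_one]
    congr 1; field_simp
  have b2 : Aexp w (cube a l) ≤ ENNReal.ofReal (D 0 * Real.exp (C * (2 * p))) := by
    refine (mul_le_mul' a0 (ENNReal.ofReal_le_ofReal (Real.exp_le_exp.2 l2))).trans (le_of_eq ?_)
    rw [← ENNReal.ofReal_mul (by positivity), Real.exp_add, Real.exp_log (inv_pos.2 hγ)]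
    congr 1; field_simp
  have hdd : dual (conj p) (dual p w) = w := by
    funext x
    have : conj p - 1 ≠ 0 := by linarith
    rw [dual, dual, ← Real.rpow_mul (hwp x).le, e1, show 1 - conj (conj p) = -(p - 1) by
      rw [conj, e2, conj]; field_simp; ring, show -(1 / (p - 1)) * -(p - 1) = 1 by field_simp,
      Real.rpow_one]
  have b3 : Ap (conj p) (dual p w) (cube a l) ≤ ENNReal.ofReal (D 1 * D 0 ^ (conj p - 1)) := by
    rw [Ap, hdd]
    refine (mul_le_mul' a1 (ENNReal.rpow_le_rpow a0 (by linarith))).trans (le_of_eq ?_)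
    have := Real.rpow_pos_of_pos hγ (1 / (p - 1))
    rw [ENNReal.ofReal_rpow_of_nonneg (by positivity) (by linarith),
      ← ENNReal.ofReal_mul (by positivity), Real.mul_rpow d0 hγ.le, e2, Real.rpow_neg hγ.le]
    congr 1; field_simp
  have b4 : Aexp (dual p w) (cube a l) ≤
      ENNReal.ofReal (D 1 * Real.exp (1 / (p - 1) * (C * (2 * p)))) := by
    have l3 : ⨍ x in cube a l, Real.log (dual p w x)⁻¹ =
        1 / (p - 1) * ⨍ x in cube a l, Real.log (w x) := by
      simp only [dual, e1, Real.log_inv, Real.log_rpow (hwp _), neg_mul, neg_neg, setAverage_eq,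
        integral_const_mul, smul_eq_mul]
      ring
    rw [Aexp, l3]
    refine (mul_le_mul' a1 (ENNReal.ofReal_le_ofReal (Real.exp_le_exp.2
      (mul_le_mul_of_nonneg_left l1 hs.le)))).trans (le_of_eq ?_)
    have := Real.rpow_pos_of_pos hγ (1 / (p - 1))
    rw [← ENNReal.ofReal_mul (by positivity), mul_add, Real.exp_add, mul_comm _ (Real.log γ),
      ← Real.rpow_def_of_pos hγ, Real.rpow_neg hγ.le]
    congr 1; field_simp
  refine ⟨b1.trans (ENNReal.ofReal_le_ofReal (by gcongr; linarith)), ?_, ?_⟩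
  · exact (mix_le hp d0 d1 (Real.one_le_exp (by positivity)) b1 b2).trans
      (ENNReal.ofReal_le_ofReal (by gcongr))
  · refine (mix_le hq d1 d0 (Real.one_le_exp (by positivity)) b3 b4).trans
      (ENNReal.ofReal_le_ofReal ?_)
    rw [e3]
    gcongr

lemma V_bdd {b : ℕ → ℝ} {m N : ℕ} (hb : ∀ k, 0 < b k) (g : ℕ) :
    ∃ M : ℝ, ∀ x, V b m N g x ≤ M := by
  induction g with
  | zero => exact ⟨1, fun _ => le_rfl⟩
  | succ g ih =>
    obtain ⟨M, hM⟩ := ih
    refine ⟨(∑ k ∈ Finset.range (N + 1), b k) * ∏ _i ∈ Finset.range m, M, fun x => ?_⟩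
    have h1 : lev N x < N + 1 := by
      by_contra h
      exact lt_irrefl _ (lt_lev.1 (show N < lev N x by omega)).1
    have h2 := Finset.single_le_sum (f := b) (fun k _ => (hb k).le) (Finset.mem_range.2 h1)
    exact mul_le_mul h2 (Finset.prod_le_prod (fun i _ => (V_pos hb g _).le) fun i _ => hM _)
      (Finset.prod_nonneg fun i _ => (V_pos hb g _).le) ((hb _).le.trans h2)

lemma IsTest.memLp {d : ℕ} {f : E d → ℂ} (h : IsTest f) : MemLp f 2 volume := by
  obtain ⟨h1, ⟨M, hM⟩, h2⟩ := h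
  exact h2.memLp_of_bound h1.aestronglyMeasurable M (Filter.Eventually.of_forall hM)

lemma opWeak_le {d : ℕ} {T : (E d → ℂ) → E d → ℂ} (hT : IsCZO T) {p : ℝ} (hp : 0 < p)
    (w : E d → ℝ) : opWeak T p w ≤ opStrong T p w := by
  refine iSup₂_mono fun f hf => ENNReal.div_le_div_right (iSup_le fun t => ?_) _
  obtain ⟨B, hB⟩ := hT.1.2.2
  have h1 : AEMeasurable (fun x => ‖T f x‖ₑ ^ p) (wmeas w) :=
    (((hB f hf.memLp).1.1.mono_ac (withDensity_absolutelyContinuous _ _)).enorm).pow_const p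
  have h2 := mul_meas_ge_le_lintegral₀ h1 ((t : ℝ≥0∞) ^ p)
  have h3 : (t : ℝ≥0∞) = ((t : ℝ≥0∞) ^ p) ^ (1 / p) := by
    rw [← ENNReal.rpow_mul, mul_one_div_cancel hp.ne', ENNReal.rpow_one]
  rw [h3, ← ENNReal.mul_rpow_of_nonneg _ _ (by positivity), lpNorm]
  refine ENNReal.rpow_le_rpow (le_trans (mul_le_mul_right (measure_mono fun x hx => ?_) _) h2)
    (by positivity)
  refine ENNReal.rpow_le_rpow ?_ hp.le
  rw [← ofReal_norm, ← ENNReal.ofReal_coe_nnreal]
  exact ENNReal.ofReal_le_ofReal (le_of_lt hx)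

theorem neg_main {p : ℝ} (hp : 1 < p) (C : ℝ≥0) : ∃ w : E 1 → ℝ, InAp p w ∧
    C * (mixed p (1 / p) w + mixed (conj p) (1 / conj p) (dual p w)) < opWeak T1 p w := by
  set C₀ : ℝ := 10 ^ 8 + ((16 * 4 ^ (p - 1)) ^ (1 + 1 / (p - 1))) ^ 2 with hC₀
  have hC₀1 : 1 ≤ C₀ := le_add_of_le_of_nonneg (by norm_num) (by positivity)
  set Γ : ℝ := 400 * (C * (C₀ * Real.exp (C₀ * (2 * p)) +
    C₀ * Real.exp (1 / (p - 1) * (C₀ * (2 * p))))) with hΓ
  have hΓ0 : 0 ≤ Γ := by positivity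
  obtain ⟨m, hm⟩ := exists_nat_gt (1 + Γ ^ p / (p - 1))
  have hp1 : 0 < p - 1 := by linarith
  have hΓp : 0 ≤ Γ ^ p / (p - 1) := by positivity
  have hm1 : 1 ≤ m := by exact_mod_cast (show (1 : ℝ) ≤ m by linarith)
  obtain ⟨n, G, B, H⟩ := exists_par hp hm1
  set W := V (bb p B m) m (m + n) (G + 1) with hW
  have hWm : Measurable W := V_meas _
  have hWp : ∀ x, 0 < W x := V_pos H.b_pos _
  have hK : (0 : ℝ) < m * G := mul_pos (by linarith [H.m1]) (by linarith [H.G1])
  have hcube := fun (a : Fin 1 → ℝ) (l : ℝ) (hl : 0 < l) =>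
    cube_bds hp hC₀1 hWm hWp a hl (H.good (a 0) l hl)
  set w : E 1 → ℝ := fun x => W (co x) with hw
  have hwm : Measurable w := hWm.comp co.measurable
  refine ⟨w, ⟨hwm, fun x => hWp _, ?_, ?_⟩, ?_⟩
  · obtain ⟨M, hM⟩ := V_bdd (m := m) (N := m + n) H.b_pos (G + 1)
    refine (locallyIntegrable_const M).mono hwm.aestronglyMeasurable
      (Filter.Eventually.of_forall fun x => ?_)
    rw [Real.norm_of_nonneg (hWp _).le]
    exact (hM _).trans (le_abs_self M)
  · exact lt_of_le_of_lt (iSup_le fun a => iSup₂_le fun l hl => (hcube a l hl).1)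
      ENNReal.ofReal_lt_top
  set l : ℝ := m * G / 400 with hl
  have hl0 : 0 < l := by positivity
  have h1 : (C : ℝ≥0∞) * (mixed p (1 / p) w + mixed (conj p) (1 / conj p) (dual p w)) ≤
      ENNReal.ofReal (Γ * l) := by
    refine (mul_le_mul_right (add_le_add (iSup_le fun a => iSup₂_le fun l hl => (hcube a l hl).2.1)
      (iSup_le fun a => iSup₂_le fun l hl => (hcube a l hl).2.2)) _).trans (le_of_eq ?_)
    rw [← ENNReal.ofReal_add (by positivity) (by positivity), ← ENNReal.ofReal_coe_nnreal,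
      ← ENNReal.ofReal_mul (by positivity), hΓ, hl]
    congr 1; ring
  refine h1.trans_lt (not_le.1 fun hc => ?_)
  set F := fn (cc p B m) m (m + n) (G + 1) with hF
  have hF0 : ∀ t, 0 ≤ F t := fn_nonneg H.c_pos _
  have hFm : Measurable F := fn_meas _
  set f : E 1 → ℂ := fun y => (F (co y) : ℂ) with hf
  have hft : IsTest f := by
    obtain ⟨M, hM⟩ := fn_bdd (m := m) (N := m + n) H.c_pos (G + 1)
    refine ⟨Complex.measurable_ofReal.comp (hFm.comp co.measurable), ⟨M, fun x => ?_⟩,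
      compact_of_bdd ((isBounded_ball (x := 0) (r := 1)).subset fun x hx => ?_)⟩
    · rw [hf, Complex.norm_real, Real.norm_of_nonneg (hF0 _)]
      exact hM _
    · have := norm_co x 0
      rw [sub_zero, show co 0 = 0 from rfl, sub_zero] at this
      rw [mem_ball_zero_iff, this]
      exact not_le.1 fun h => hx (by simp only [hf, hF, fn_out _ h, Complex.ofReal_zero])
  have hlp : lpNorm p w f ≤ ENNReal.ofReal (32 * G) ^ (1 / p) := by
    refine ENNReal.rpow_le_rpow (le_trans (le_of_eq ?_) H.Y_bd) (by positivity)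
    rw [wmeas, lintegral_withDensity_eq_lintegral_mul _ hwm.ennreal_ofReal
      (hft.1.enorm.pow_const p), ← lint_co]
    refine lintegral_congr fun x => ?_
    rw [Pi.mul_apply, mul_comm, ← ofReal_norm, hf, Complex.norm_real, Real.norm_of_nonneg (hF0 _),
      ENNReal.ofReal_rpow_of_nonneg (hF0 _) (by linarith),
      ← ENNReal.ofReal_mul (Real.rpow_nonneg (hF0 _) _)]
  have hwk : weakNorm p w (T1 f) ≤ ENNReal.ofReal (Γ * l) * ENNReal.ofReal (32 * G) ^ (1 / p) := by
    have h2 : weakNorm p w (T1 f) / lpNorm p w f ≤ ENNReal.ofReal (Γ * l) :=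
      (le_iSup₂_of_le (f := fun f (_ : IsTest f) => weakNorm p w (T1 f) / lpNorm p w f)
        f hft le_rfl).trans hc
    rw [ENNReal.div_le_iff_le_mul (Or.inr ENNReal.ofReal_ne_top) (Or.inl (ne_top_of_le_ne_top
      (ENNReal.rpow_ne_top_of_nonneg (by positivity) ENNReal.ofReal_ne_top) hlp))] at h2
    exact h2.trans (mul_le_mul_right hlp _)
  obtain ⟨B', hB'⟩ := T1_czo.1.2.2
  have hk := kolm (wmeas w) (co ⁻¹' Ps 0) (h := fun x => ‖T1 f x‖) (fun x => norm_nonneg _)
    ((hB' f hft.memLp).1.1.mono_ac (withDensity_absolutelyContinuous _ _)).norm.aemeasurable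
    hp hl0 (A := ENNReal.ofReal ((Γ * l) ^ p * (32 * G))) fun t ht => by
      have h2 : ENNReal.ofReal t * wmeas w {x | t < ‖T1 f x‖} ^ (1 / p) ≤
          ENNReal.ofReal (Γ * l) * ENNReal.ofReal (32 * G) ^ (1 / p) :=
        (le_iSup (fun t : ℝ≥0 => t * wmeas w {x | (t : ℝ) < ‖T1 f x‖} ^ (1 / p))
          ⟨t, ht.le⟩).trans' (le_of_eq (by rw [ENNReal.ofReal_eq_coe_nnreal ht.le]; rfl))
          |>.trans hwk
      have h3 := ENNReal.rpow_le_rpow h2 (show 0 ≤ p by linarith)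
      have e : ∀ z : ℝ≥0∞, (z ^ (1 / p)) ^ p = z := fun z => by
        rw [← ENNReal.rpow_mul, one_div_mul_cancel (by linarith), ENNReal.rpow_one]
      rw [ENNReal.mul_rpow_of_nonneg _ _ (by linarith), ENNReal.mul_rpow_of_nonneg _ _
        (by linarith), e, e, ENNReal.ofReal_rpow_of_pos ht,
        ENNReal.ofReal_rpow_of_nonneg (by positivity) (by linarith),
        ← ENNReal.ofReal_mul (by positivity)] at h3
      have h4 := Real.rpow_pos_of_pos ht p
      rw [Real.rpow_neg ht.le, ENNReal.ofReal_inv_of_pos h4, ← div_eq_mul_inv,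
        ENNReal.le_div_iff_mul_le (Or.inl (ENNReal.ofReal_pos.2 h4).ne')
          (Or.inl ENNReal.ofReal_ne_top), mul_comm]
      exact h3
  have hR : MeasurableSet (co ⁻¹' Ps 0) := co.measurable (meas_Ps 0)
  have hZ : Zp (bb p B m) (cc p B m) m (m + n) (G + 1) =
      ∫⁻ x in co ⁻¹' Ps 0, ENNReal.ofReal ‖T1 f x‖ ∂wmeas w := by
    rw [wmeas, setLIntegral_withDensity_eq_setLIntegral_mul_non_measurable _ hwm.ennreal_ofReal _
      hR (Filter.Eventually.of_forall fun x => ENNReal.ofReal_lt_top), Zp,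
      ← co_mp.setLIntegral_comp_preimage_emb co.measurableEmbedding]
    refine lintegral_congr_ae (ae_restrict_of_ae ((T1_enorm hF0 hft.memLp).mono fun x hx => ?_))
    beta_reduce
    rw [Pi.mul_apply, ofReal_norm, hx, mul_comm]
  have hX : wmeas w (co ⁻¹' Ps 0) ≤ ENNReal.ofReal (200 * (m * G)) := by
    rw [wmeas, withDensity_apply _ hR, co_mp.setLIntegral_comp_preimage_emb co.measurableEmbedding
      (fun t => ENNReal.ofReal (W t))]
    exact H.x_b le_rfl
  have hfin := H.Z_bd.trans (hZ.le.trans (hk.trans (add_le_add (mul_le_mul_right hX _) le_rfl)))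
  rw [← ENNReal.ofReal_mul hl0.le, ← ENNReal.ofReal_mul (by positivity),
    ← ENNReal.ofReal_add (by positivity) (by positivity),
    ENNReal.ofReal_le_ofReal_iff (by positivity), Real.mul_rpow hΓ0 hl0.le] at hfin
  have e : Γ ^ p * l ^ p * (32 * G) * (l ^ (1 - p) / (p - 1)) =
      Γ ^ p / (p - 1) * (32 * G) * (l ^ p * l ^ (1 - p)) := by ring
  rw [e, ← Real.rpow_add hl0, add_sub_cancel, Real.rpow_one, hl] at hfin
  have hG := H.G1
  have h5 : Γ ^ p / (p - 1) * (32 * G) * (m * G / 400) ≤ m * (32 * G) * (m * G / 400) := by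
    gcongr; linarith
  nlinarith [mul_pos hK hK]

theorem neg_part : ∃ T : (E 1 → ℂ) → E 1 → ℂ, IsCZO T ∧ ∀ p : ℝ, 1 < p → ∀ C : ℝ≥0,
    ∃ w : E 1 → ℝ, InAp p w ∧ C * mixed p (1 / p) w < opWeak T p w ∧
      C * (mixed p (1 / p) w + mixed (conj p) (1 / conj p) (dual p w)) < opStrong T p w := by
  refine ⟨T1, T1_czo, fun p hp C => ?_⟩
  obtain ⟨w, h1, h2⟩ := neg_main hp C
  exact ⟨w, h1, (mul_le_mul_right le_self_add _).trans_lt h2,
    h2.trans_le (opWeak_le T1_czo (by linarith) w)⟩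

end Pool.Agent.H572Z.Ex
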